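import Mathlib

set_option autoImplicit false
open Filter Topology Finset

namespace Pool.Agent.Results.MP_58b66c_an.LimitInterval

section Fejer

variable (D : ℕ)

/-- The `D`-th roots of unity `exp(-2 pi i l / D)`. -/
noncomputable def xi (l : ℕ) : ℂ := Complex.exp (-(2 * Real.pi * Complex.I / D)) ^ l

/-- Normalised geometric sum. -/
noncomputable def gs (l : ℕ) (z : ℂ) : ℂ := (∑ m ∈ range D, (xi D l * z) ^ m) / D

/-- Number of ways to write `m` as a sum of two numbers below `D`. -/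
def cnt (m : ℕ) : ℕ := ((range D ×ˢ range D).filter (fun p => p.1 + p.2 = m)).card

/-- Coefficients of the slow factor with weights `w`. -/
noncomputable def coef (w : ℕ → ℝ) (m : ℕ) : ℂ :=
  (cnt D m : ℂ) / (D : ℂ) ^ 2 * ∑ l ∈ range D, (w l : ℂ) * xi D l ^ (m + 1)

/-- The slow factor with weights `w`. -/
noncomputable def pol (w : ℕ → ℝ) (z : ℂ) : ℂ := ∑ m ∈ range (2 * D - 1), coef D w m * z ^ m

variable {D}

lemma eta_prim (hD : D ≠ 0) :
    IsPrimitiveRoot (Complex.exp (-(2 * Real.pi * Complex.I / D))) D := by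
  rw [Complex.exp_neg]
  exact (Complex.isPrimitiveRoot_exp D hD).inv

lemma xi_pow_D (hD : D ≠ 0) (l : ℕ) : xi D l ^ D = 1 := by
  unfold xi
  rw [← pow_mul, mul_comm l D, pow_mul, (eta_prim hD).pow_eq_one, one_pow]

lemma norm_xi (hD : D ≠ 0) (l : ℕ) : ‖xi D l‖ = 1 := by
  have h := congrArg norm (xi_pow_D hD l)
  rw [norm_pow, norm_one] at h
  exact (pow_eq_one_iff_of_nonneg (norm_nonneg _) hD).1 h

lemma cnt_le (m : ℕ) : cnt D m ≤ D := by
  unfold cnt
  calc _ ≤ (range D).card := by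
        apply Finset.card_le_card_of_injOn (fun p => p.1)
        · intro p hp
          simp only [coe_filter, mem_product, mem_range, Set.mem_ofPred_eq] at hp
          simpa using hp.1.1
        · intro p hp q hq h
          simp only [coe_filter, mem_product, mem_range, Set.mem_ofPred_eq] at hp hq
          simp only at h
          have h1 := hp.2
          have h2 := hq.2
          ext
          · exact h
          · omega
    _ = D := card_range D

lemma cnt_center : cnt D (D - 1) = D := by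
  unfold cnt
  have : ((range D ×ˢ range D).filter (fun p => p.1 + p.2 = D - 1))
      = (range D).image (fun i => (i, D - 1 - i)) := by
    ext ⟨i, j⟩
    simp only [mem_filter, mem_product, mem_range, mem_image, Prod.mk.injEq]
    constructor
    · rintro ⟨⟨h1, h2⟩, h3⟩
      exact ⟨i, h1, rfl, by omega⟩
    · rintro ⟨k, hk, rfl, rfl⟩
      omega
  rw [this, card_image_of_injective, card_range]
  intro i j h
  simpa using (Prod.mk.inj h).1

lemma sum_cnt (x : ℂ) : ∑ m ∈ range (2 * D - 1), (cnt D m : ℂ) * x ^ m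
    = (∑ i ∈ range D, x ^ i) ^ 2 := by
  rw [sq, sum_mul_sum, ← sum_product']
  have hm : ∀ p ∈ range D ×ˢ range D, p.1 + p.2 ∈ range (2 * D - 1) := by
    intro p hp
    simp only [mem_product, mem_range] at hp ⊢
    omega
  rw [← sum_fiberwise_of_maps_to hm]
  refine sum_congr rfl fun m _ => ?_
  rw [sum_congr rfl (g := fun _ => x ^ m), sum_const, nsmul_eq_mul]
  · rfl
  · intro p hp
    rw [mem_filter] at hp
    rw [← pow_add, hp.2]

lemma pol_eq (w : ℕ → ℝ) (z : ℂ) :
    pol D w z = ∑ l ∈ range D, (w l : ℂ) * (xi D l * gs D l z ^ 2) := by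
  unfold pol coef gs
  have h1 : ∀ m ∈ range (2 * D - 1),
      (cnt D m : ℂ) / (D : ℂ) ^ 2 * (∑ l ∈ range D, (w l : ℂ) * xi D l ^ (m + 1)) * z ^ m
      = ∑ l ∈ range D, (w l : ℂ) * (xi D l / (D : ℂ) ^ 2 * ((cnt D m : ℂ) * (xi D l * z) ^ m)) := by
    intro m _
    rw [mul_sum, sum_mul]
    refine sum_congr rfl fun l _ => ?_
    rw [mul_pow, pow_succ]
    ring
  rw [sum_congr rfl h1, sum_comm]
  refine sum_congr rfl fun l _ => ?_
  rw [← mul_sum, ← mul_sum, sum_cnt, div_pow]
  ring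

lemma gs_sq (hD : D ≠ 0) (l : ℕ) {u : ℂ} (hu : ‖u‖ = 1) :
    xi D l * gs D l u ^ 2 = u ^ (D - 1) * ((‖gs D l u‖ ^ 2 : ℝ) : ℂ) := by
  set v := xi D l * u with hv
  have hv1 : ‖v‖ = 1 := by rw [hv, norm_mul, norm_xi hD, hu, one_mul]
  have hv0 : v ≠ 0 := by
    intro h
    rw [h, norm_zero] at hv1
    exact zero_ne_one hv1
  have hconj : (starRingEnd ℂ) v = v⁻¹ := by
    rw [Complex.inv_def, Complex.normSq_eq_norm_sq, hv1]
    simp
  have h1 : (∑ m ∈ range D, v ^ m) = v ^ (D - 1) * (starRingEnd ℂ) (∑ m ∈ range D, v ^ m) := by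
    rw [map_sum, mul_sum, ← sum_range_reflect]
    refine sum_congr rfl fun m hm => ?_
    rw [mem_range] at hm
    rw [map_pow, hconj, inv_pow]
    have : v ^ (D - 1) = v ^ (D - 1 - m) * v ^ m := by
      rw [← pow_add]
      congr 1
      omega
    rw [this, mul_assoc, mul_inv_cancel₀ (pow_ne_zero _ hv0), mul_one]
  have h2 : gs D l u = v ^ (D - 1) * (starRingEnd ℂ) (gs D l u) := by
    unfold gs
    rw [← hv, map_div₀, Complex.conj_natCast, ← mul_div_assoc, ← h1]
  have h3 : gs D l u ^ 2 = v ^ (D - 1) * ((‖gs D l u‖ ^ 2 : ℝ) : ℂ) := by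
    have h4 : ((‖gs D l u‖ ^ 2 : ℝ) : ℂ) = (starRingEnd ℂ) (gs D l u) * gs D l u := by
      rw [← Complex.normSq_eq_norm_sq, Complex.normSq_eq_conj_mul_self]
    rw [h4, ← mul_assoc, ← h2, sq]
  have h5 : xi D l * xi D l ^ (D - 1) = 1 := by
    rw [← pow_succ', Nat.sub_add_cancel (Nat.one_le_iff_ne_zero.2 hD), xi_pow_D hD]
  rw [h3, hv, mul_pow, ← mul_assoc, ← mul_assoc, h5, one_mul]

lemma parseval (hD : D ≠ 0) {u : ℂ} (hu : ‖u‖ = 1) :
    ∑ l ∈ range D, ‖gs D l u‖ ^ 2 = 1 := by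
  have hDc : (D : ℂ) ≠ 0 := by exact_mod_cast hD
  have hcu : (starRingEnd ℂ) u * u = 1 := by
    rw [← Complex.normSq_eq_conj_mul_self, Complex.normSq_eq_norm_sq, hu]
    simp
  have key : ((∑ l ∈ range D, ‖gs D l u‖ ^ 2 : ℝ) : ℂ) = 1 := by
    push_cast
    have h1 : ∀ l ∈ range D, ((‖gs D l u‖ : ℂ)) ^ 2
        = ∑ m ∈ range D, ∑ n ∈ range D, (u ^ m * (starRingEnd ℂ) u ^ n / (D : ℂ) ^ 2) *
          (xi D l ^ m * (starRingEnd ℂ) (xi D l) ^ n) := by
      intro l _
      have h4 : ((‖gs D l u‖ : ℂ)) ^ 2 = gs D l u * (starRingEnd ℂ) (gs D l u) := by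
        rw [← Complex.ofReal_pow, ← Complex.normSq_eq_norm_sq, Complex.normSq_eq_conj_mul_self,
          mul_comm]
      rw [h4]
      unfold gs
      rw [map_div₀, Complex.conj_natCast, map_sum, div_mul_div_comm, sum_mul_sum, ← sq, sum_div]
      refine sum_congr rfl fun m _ => ?_
      rw [sum_div]
      refine sum_congr rfl fun n _ => ?_
      rw [map_pow, map_mul, mul_pow, mul_pow]
      ring
    rw [sum_congr rfl h1, sum_comm]
    have h2 : ∀ m ∈ range D, ∑ l ∈ range D, ∑ n ∈ range D,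
        (u ^ m * (starRingEnd ℂ) u ^ n / (D : ℂ) ^ 2) * (xi D l ^ m * (starRingEnd ℂ) (xi D l) ^ n)
        = 1 / (D : ℂ) := by
      intro m hm
      rw [mem_range] at hm
      rw [sum_comm]
      rw [sum_eq_single m]
      · rw [← mul_sum]
        have h5 : ∀ l ∈ range D, xi D l ^ m * (starRingEnd ℂ) (xi D l) ^ m = 1 := by
          intro l _
          rw [← mul_pow, mul_comm (xi D l), ← Complex.normSq_eq_conj_mul_self,
            Complex.normSq_eq_norm_sq, norm_xi hD]
          simp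
        rw [sum_congr rfl h5, sum_const, card_range, nsmul_eq_mul, mul_one, ← mul_pow,
          mul_comm u, hcu, one_pow]
        field_simp
      · intro n hn hnm
        rw [mem_range] at hn
        rw [← mul_sum]
        set η := Complex.exp (-(2 * Real.pi * Complex.I / D)) with hη
        have hη1 : ‖η‖ = 1 := by
          have := norm_xi hD 1
          unfold xi at this
          rwa [pow_one] at this
        have hη0 : η ≠ 0 := by
          intro h
          rw [h, norm_zero] at hη1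
          exact zero_ne_one hη1
        have hconj : (starRingEnd ℂ) η = η⁻¹ := by
          rw [Complex.inv_def, Complex.normSq_eq_norm_sq, hη1]
          simp
        set q : ℂ := η ^ m * (η⁻¹) ^ n with hq
        have h6 : ∀ l ∈ range D, xi D l ^ m * (starRingEnd ℂ) (xi D l) ^ n = q ^ l := by
          intro l _
          unfold xi
          rw [map_pow, ← hη, hconj, hq, mul_pow, ← pow_mul, ← pow_mul, ← pow_mul, ← pow_mul,
            mul_comm l m, mul_comm l n]
        rw [sum_congr rfl h6]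
        have hqD : q ^ D = 1 := by
          rw [hq, mul_pow, ← pow_mul, mul_comm m D, pow_mul, (eta_prim hD).pow_eq_one, one_pow,
            one_mul, ← pow_mul, mul_comm n D, pow_mul, inv_pow, (eta_prim hD).pow_eq_one]
          simp
        have hq1 : q ≠ 1 := by
          intro h
          rw [hq, inv_pow, ← div_eq_mul_inv, div_eq_one_iff_eq (pow_ne_zero _ hη0)] at h
          exact hnm ((eta_prim hD).pow_inj hm hn h).symm
        have h7 : (∑ l ∈ range D, q ^ l) = 0 := by
          have h8 := mul_geom_sum q D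
          rw [hqD, sub_self] at h8
          exact (mul_eq_zero.1 h8).resolve_left (sub_ne_zero.2 hq1)
        rw [h7, mul_zero]
      · intro h
        exact absurd (mem_range.2 hm) h
    rw [sum_congr rfl h2, sum_const, card_range, nsmul_eq_mul]
    field_simp
  exact_mod_cast key

/-- The point on the circle where the `l`-th kernel peaks. -/
noncomputable def pk (D l : ℕ) : ℂ := (xi D l)⁻¹

lemma norm_pk (hD : D ≠ 0) (l : ℕ) : ‖pk D l‖ = 1 := by
  unfold pk
  rw [norm_inv, norm_xi hD, inv_one]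

lemma gs_pk_self (hD : D ≠ 0) (l : ℕ) : ‖gs D l (pk D l)‖ ^ 2 = 1 := by
  have hDc : (D : ℂ) ≠ 0 := by exact_mod_cast hD
  have h0 : xi D l ≠ 0 := by
    intro h
    have := norm_xi hD l
    rw [h, norm_zero] at this
    exact zero_ne_one this
  unfold gs pk
  rw [mul_inv_cancel₀ h0]
  simp [hDc]

lemma gs_pk_ne (hD : D ≠ 0) {l k : ℕ} (hl : l < D) (hk : k < D) (hkl : k ≠ l) :
    ‖gs D k (pk D l)‖ ^ 2 = 0 := by
  have h1 := parseval hD (norm_pk hD l)
  rw [← add_sum_erase _ _ (mem_range.2 hl), gs_pk_self hD] at h1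
  have h2 : ∑ x ∈ (range D).erase l, ‖gs D x (pk D l)‖ ^ 2 = 0 := by linarith
  rw [sum_eq_zero_iff_of_nonneg (fun i _ => by positivity)] at h2
  exact h2 k (mem_erase.2 ⟨hkl, mem_range.2 hk⟩)

lemma pol_circle (hD : D ≠ 0) (w : ℕ → ℝ) {u : ℂ} (hu : ‖u‖ = 1) :
    pol D w u = u ^ (D - 1) * ∑ l ∈ range D, ((‖gs D l u‖ ^ 2 : ℝ) : ℂ) * (w l : ℂ) := by
  rw [pol_eq, mul_sum]
  refine sum_congr rfl fun l _ => ?_
  rw [gs_sq hD l hu]
  ring

lemma pol_pk (hD : D ≠ 0) (w : ℕ → ℝ) {l : ℕ} (hl : l < D) :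
    pol D w (pk D l) = pk D l ^ (D - 1) * (w l : ℂ) := by
  rw [pol_circle hD w (norm_pk hD l), sum_eq_single l]
  · rw [gs_pk_self hD]
    simp
  · intro k hk hkl
    rw [gs_pk_ne hD hl (mem_range.1 hk) hkl]
    simp
  · intro h
    exact absurd (mem_range.2 hl) h

lemma coef_norm_le (hD : D ≠ 0) {w : ℕ → ℝ} (hw : ∀ l, 0 ≤ w l)
    (hs : ∑ l ∈ range D, w l = D) (m : ℕ) : ‖coef D w m‖ ≤ 1 := by
  have hDr : (0 : ℝ) < D := by exact_mod_cast Nat.pos_of_ne_zero hD
  unfold coef
  rw [norm_mul, norm_div, norm_pow, Complex.norm_natCast, Complex.norm_natCast]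
  have h1 : ‖∑ l ∈ range D, (w l : ℂ) * xi D l ^ (m + 1)‖ ≤ D := by
    rw [← hs]
    refine (norm_sum_le _ _).trans (sum_le_sum fun l _ => ?_)
    rw [norm_mul, norm_pow, norm_xi hD, one_pow, mul_one, Complex.norm_real, Real.norm_eq_abs,
      abs_of_nonneg (hw l)]
  have h2 : (cnt D m : ℝ) ≤ D := by exact_mod_cast cnt_le m
  calc (cnt D m : ℝ) / (D : ℝ) ^ 2 * ‖∑ l ∈ range D, (w l : ℂ) * xi D l ^ (m + 1)‖
      ≤ (D : ℝ) / (D : ℝ) ^ 2 * D := by gcongr
    _ = 1 := by field_simp

lemma coef_center (hD : D ≠ 0) {w : ℕ → ℝ}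
    (hs : ∑ l ∈ range D, w l = D) : coef D w (D - 1) = 1 := by
  have hDc : (D : ℂ) ≠ 0 := by exact_mod_cast hD
  unfold coef
  rw [cnt_center, Nat.sub_add_cancel (Nat.one_le_iff_ne_zero.2 hD)]
  have h1 : ∑ l ∈ range D, (w l : ℂ) * xi D l ^ D = D := by
    rw [← Complex.ofReal_natCast, ← hs]
    push_cast
    refine sum_congr rfl fun l _ => ?_
    rw [xi_pow_D hD, mul_one]
  rw [h1]
  field_simp

end Fejer


section Cluster

/-- The normalised maximum term of `1 + b w - w^2`. -/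
noncomputable def NN (b ρ : ℝ) : ℝ := max 1 (max (b * ρ) (ρ ^ 2))

/-- The constant of the cluster polynomial. -/
noncomputable def K0 (b : ℝ) : ℝ := Real.sqrt (b ^ 2 / 4 + 1) * (1 + 1 / b ^ 2)

lemma one_add_sq_le {b ρ : ℝ} (hb : 0 < b) (hρ : 0 ≤ ρ) :
    1 + ρ ^ 2 ≤ (1 + 1 / b ^ 2) * NN b ρ := by
  have h0 : 0 < 1 + 1 / b ^ 2 := by positivity
  have hN1 : 1 ≤ NN b ρ := le_max_left _ _
  have hN2 : b * ρ ≤ NN b ρ := (le_max_left _ _).trans (le_max_right _ _)
  have hN3 : ρ ^ 2 ≤ NN b ρ := (le_max_right _ _).trans (le_max_right _ _)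
  rcases le_or_gt (b * ρ) 1 with h | h
  · have h1 : ρ ^ 2 ≤ 1 / b ^ 2 := by
      rw [le_div_iff₀ (by positivity)]
      have : 0 ≤ b * ρ := by positivity
      nlinarith
    calc 1 + ρ ^ 2 ≤ (1 + 1 / b ^ 2) * 1 := by linarith
      _ ≤ _ := mul_le_mul_of_nonneg_left hN1 h0.le
  · rcases le_or_gt b ρ with h2 | h2
    · have h1 : 1 ≤ 1 / b ^ 2 * ρ ^ 2 := by
        rw [one_div, inv_mul_eq_div, one_le_div (by positivity)]
        exact pow_le_pow_left₀ hb.le h2 2
      calc 1 + ρ ^ 2 ≤ (1 + 1 / b ^ 2) * ρ ^ 2 := by linarith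
        _ ≤ _ := mul_le_mul_of_nonneg_left hN3 h0.le
    · have h1 : 1 + ρ ^ 2 ≤ (1 + 1 / b ^ 2) * (b * ρ) := by
        have h3 : (1 + 1 / b ^ 2) * (b * ρ) = (b ^ 2 * ρ + ρ) / b := by
          field_simp
        rw [h3, le_div_iff₀ hb]
        nlinarith
      exact h1.trans (mul_le_mul_of_nonneg_left hN2 h0.le)

lemma cluster_le {b : ℝ} (hb : 0 < b) (W : ℂ) :
    ‖1 + (b : ℂ) * W - W ^ 2‖ ≤ K0 b * NN b ‖W‖ := by
  have h1 : ‖1 + (b : ℂ) * W - W ^ 2‖ ≤ Real.sqrt (b ^ 2 / 4 + 1) * (1 + ‖W‖ ^ 2) := by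
    apply le_of_sq_le_sq _ (by positivity)
    rw [mul_pow, Real.sq_sqrt (by positivity), ← Complex.normSq_eq_norm_sq,
      ← Complex.normSq_eq_norm_sq, Complex.normSq_apply, Complex.normSq_apply]
    simp only [Complex.sub_re, Complex.add_re, Complex.one_re, Complex.mul_re, Complex.ofReal_re,
      Complex.ofReal_im, Complex.sub_im, Complex.add_im, Complex.one_im, Complex.mul_im, sq W]
    nlinarith [sq_nonneg (2 * W.re - b * (1 - (W.re * W.re + W.im * W.im)) / 2)]
  refine h1.trans ?_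
  unfold K0
  rw [mul_assoc]
  exact mul_le_mul_of_nonneg_left (one_add_sq_le hb (norm_nonneg _)) (Real.sqrt_nonneg _)

/-- The weights. -/
noncomputable def wt (K a : ℝ) (c l : ℕ) : ℝ := if l = c then K else if l < 3 then 0 else a

lemma wt_nonneg {K a : ℝ} (hK : 0 ≤ K) (ha : 0 ≤ a) (c l : ℕ) : 0 ≤ wt K a c l := by
  unfold wt
  split_ifs <;> first | exact hK | exact le_refl _ | exact ha

lemma wt_sum {D : ℕ} {K a : ℝ} (hD : 3 ≤ D) (hs : K + (D - 3) * a = D) {c : ℕ} (hc : c < 3) :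
    ∑ l ∈ range D, wt K a c l = D := by
  obtain ⟨n, rfl⟩ := Nat.exists_eq_add_of_le hD
  rw [sum_range_add]
  have h1 : ∑ x ∈ range n, wt K a c (3 + x) = n * a := by
    rw [sum_congr rfl (g := fun _ => a), sum_const, card_range, nsmul_eq_mul]
    intro x _
    unfold wt
    rw [if_neg (by omega), if_neg (by omega)]
  have h2 : ∑ x ∈ range 3, wt K a c x = K := by
    interval_cases c <;> simp [wt, sum_range_succ]
  rw [h1, h2]
  push_cast at hs ⊢
  linarith

lemma main_le {D : ℕ} {K a b : ℝ} (hD : 3 ≤ D) (hb : 0 < b) (hK : 0 ≤ K) (ha : 0 ≤ a)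
    (haK : a * K0 b ≤ K) {c c' : ℕ} (hc : c < 2) (hc' : c' < 2) (hcc : c ≠ c')
    {u : ℂ} (hu : ‖u‖ = 1) (W : ℂ) :
    ‖pol D (wt K a c) u + (b : ℂ) * pol D (wt K a 2) u * W - pol D (wt K a c') u * W ^ 2‖
      ≤ K * NN b ‖W‖ := by
  have hD0 : D ≠ 0 := by omega
  rw [pol_circle hD0 _ hu, pol_circle hD0 _ hu, pol_circle hD0 _ hu]
  have h1 : u ^ (D - 1) * ∑ l ∈ range D, ((‖gs D l u‖ ^ 2 : ℝ) : ℂ) * (wt K a c l : ℂ)
      + (b : ℂ) * (u ^ (D - 1) * ∑ l ∈ range D, ((‖gs D l u‖ ^ 2 : ℝ) : ℂ) * (wt K a 2 l : ℂ)) * W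
      - u ^ (D - 1) * (∑ l ∈ range D, ((‖gs D l u‖ ^ 2 : ℝ) : ℂ) * (wt K a c' l : ℂ)) * W ^ 2
      = u ^ (D - 1) * ∑ l ∈ range D, ((‖gs D l u‖ ^ 2 : ℝ) : ℂ) *
        ((wt K a c l : ℂ) + (b : ℂ) * (wt K a 2 l : ℂ) * W - (wt K a c' l : ℂ) * W ^ 2) := by
    have h2 : ∑ l ∈ range D, ((‖gs D l u‖ ^ 2 : ℝ) : ℂ) *
        ((wt K a c l : ℂ) + (b : ℂ) * (wt K a 2 l : ℂ) * W - (wt K a c' l : ℂ) * W ^ 2)
        = ∑ l ∈ range D, ((‖gs D l u‖ ^ 2 : ℝ) : ℂ) * (wt K a c l : ℂ)
        + (∑ l ∈ range D, ((‖gs D l u‖ ^ 2 : ℝ) : ℂ) * (wt K a 2 l : ℂ)) * ((b : ℂ) * W)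
        - (∑ l ∈ range D, ((‖gs D l u‖ ^ 2 : ℝ) : ℂ) * (wt K a c' l : ℂ)) * W ^ 2 := by
      rw [sum_mul, sum_mul, ← sum_add_distrib, ← sum_sub_distrib]
      refine sum_congr rfl fun l _ => ?_
      ring
    rw [h2]
    ring
  rw [h1, norm_mul, norm_pow, hu, one_pow, one_mul]
  have hN : 0 ≤ NN b ‖W‖ := le_trans zero_le_one (le_max_left _ _)
  have hN1 : 1 ≤ NN b ‖W‖ := le_max_left _ _
  have hN2 : b * ‖W‖ ≤ NN b ‖W‖ := (le_max_left _ _).trans (le_max_right _ _)
  have hN3 : ‖W‖ ^ 2 ≤ NN b ‖W‖ := (le_max_right _ _).trans (le_max_right _ _)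
  have hterm : ∀ l ∈ range D, ‖((‖gs D l u‖ ^ 2 : ℝ) : ℂ) *
        ((wt K a c l : ℂ) + (b : ℂ) * (wt K a 2 l : ℂ) * W - (wt K a c' l : ℂ) * W ^ 2)‖
        ≤ ‖gs D l u‖ ^ 2 * (K * NN b ‖W‖) := by
    intro l _
    rw [norm_mul, Complex.norm_real, Real.norm_eq_abs, abs_of_nonneg (by positivity)]
    refine mul_le_mul_of_nonneg_left ?_ (by positivity)
    by_cases hl : l < 3
    · -- one of the three special weights
      have h3 : l = c ∨ l = c' ∨ l = 2 := by omega
      rcases h3 with rfl | rfl | rfl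
      · have e1 : wt K a l l = K := by unfold wt; simp
        have e2 : wt K a 2 l = 0 := by unfold wt; rw [if_neg (by omega), if_pos hl]
        have e3 : wt K a c' l = 0 := by unfold wt; rw [if_neg (by omega), if_pos hl]
        rw [e1, e2, e3]
        simp only [Complex.ofReal_zero, mul_zero, zero_mul, add_zero, sub_zero, Complex.norm_real,
          Real.norm_eq_abs, abs_of_nonneg hK]
        nlinarith
      · have e1 : wt K a l l = K := by unfold wt; simp
        have e2 : wt K a 2 l = 0 := by unfold wt; rw [if_neg (by omega), if_pos hl]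
        have e3 : wt K a c l = 0 := by unfold wt; rw [if_neg (by omega), if_pos hl]
        rw [e1, e2, e3]
        simp only [Complex.ofReal_zero, mul_zero, zero_mul, add_zero, zero_sub, norm_neg, norm_mul,
          norm_pow, Complex.norm_real, Real.norm_eq_abs, abs_of_nonneg hK]
        exact mul_le_mul_of_nonneg_left hN3 hK
      · have e1 : wt K a 2 2 = K := by unfold wt; simp
        have e2 : wt K a c 2 = 0 := by unfold wt; rw [if_neg (by omega), if_pos hl]
        have e3 : wt K a c' 2 = 0 := by unfold wt; rw [if_neg (by omega), if_pos hl]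
        rw [e1, e2, e3]
        simp only [Complex.ofReal_zero, zero_mul, zero_add, sub_zero, norm_mul,
          Complex.norm_real, Real.norm_eq_abs, abs_of_nonneg hK, abs_of_nonneg hb.le]
        nlinarith
    · have e1 : wt K a c l = a := by unfold wt; rw [if_neg (by omega), if_neg hl]
      have e2 : wt K a 2 l = a := by unfold wt; rw [if_neg (by omega), if_neg hl]
      have e3 : wt K a c' l = a := by unfold wt; rw [if_neg (by omega), if_neg hl]
      rw [e1, e2, e3]
      have h4 : (a : ℂ) + (b : ℂ) * (a : ℂ) * W - (a : ℂ) * W ^ 2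
          = (a : ℂ) * (1 + (b : ℂ) * W - W ^ 2) := by ring
      rw [h4, norm_mul, Complex.norm_real, Real.norm_eq_abs, abs_of_nonneg ha]
      calc a * ‖1 + (b : ℂ) * W - W ^ 2‖ ≤ a * (K0 b * NN b ‖W‖) :=
            mul_le_mul_of_nonneg_left (cluster_le hb W) ha
        _ = (a * K0 b) * NN b ‖W‖ := by ring
        _ ≤ K * NN b ‖W‖ := mul_le_mul_of_nonneg_right haK hN
  calc ‖∑ l ∈ range D, ((‖gs D l u‖ ^ 2 : ℝ) : ℂ) *
        ((wt K a c l : ℂ) + (b : ℂ) * (wt K a 2 l : ℂ) * W - (wt K a c' l : ℂ) * W ^ 2)‖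
      ≤ ∑ l ∈ range D, ‖gs D l u‖ ^ 2 * (K * NN b ‖W‖) :=
        (norm_sum_le _ _).trans (sum_le_sum hterm)
    _ = K * NN b ‖W‖ := by rw [← sum_mul, parseval hD0 hu, one_mul]

end Cluster


section Radii

/-- The gap of the `j`-th cluster. -/
def gap (D j : ℕ) : ℕ := (j + 1) ^ 2 + 2 * D

/-- The lowest exponent of the `j`-th cluster. -/
def expN (D : ℕ) : ℕ → ℕ
  | 0 => 0
  | (j + 1) => expN D j + 2 * gap D j

/-- The size of the coefficients of the `j`-th cluster. -/
noncomputable def cc (D : ℕ) : ℕ → ℝ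
  | 0 => 1
  | (j + 1) => cc D j / ((j : ℝ) + 1) ^ (2 * gap D j)

/-- The normalised radius of the `j`-th cluster. -/
noncomputable def xx (j : ℕ) (r : ℝ) : ℝ := r / ((j : ℝ) + 1)

/-- The size of the `j`-th cluster. -/
noncomputable def AA (D j : ℕ) (r : ℝ) : ℝ := cc D j * r ^ expN D j

variable {D : ℕ}

lemma cc_pos (j : ℕ) : 0 < cc D j := by
  induction j with
  | zero => simp [cc]
  | succ j ih => simp only [cc]; positivity

lemma AA_pos (j : ℕ) {r : ℝ} (hr : 0 < r) : 0 < AA D j r := by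
  unfold AA
  have := cc_pos (D := D) j
  positivity

lemma AA_succ (j : ℕ) (r : ℝ) : AA D (j + 1) r = AA D j r * xx j r ^ (2 * gap D j) := by
  unfold AA xx
  simp only [cc, expN]
  rw [pow_add, div_pow]
  ring

/-- The decay rate. -/
noncomputable def th (J : ℕ) : ℝ := 2 / ((J : ℝ) + 2)

lemma th_pos (J : ℕ) : 0 < th J := by unfold th; positivity

lemma th_le_one (J : ℕ) : th J ≤ 1 := by
  unfold th
  rw [div_le_one (by positivity)]
  have : (0 : ℝ) ≤ J := Nat.cast_nonneg J
  linarith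

lemma left_pow {i J : ℕ} (h : i < J) {r : ℝ} (hr : (J : ℝ) + 1 / 2 ≤ r) :
    1 ≤ xx i r ∧ 1 ≤ th J * xx i r ^ ((i + 1) ^ 2) := by
  have hi : (i : ℝ) + 1 ≤ J := by exact_mod_cast h
  have hi0 : (0 : ℝ) ≤ i := Nat.cast_nonneg i
  have hx : 1 ≤ xx i r := by
    unfold xx
    rw [one_le_div (by positivity)]
    linarith
  refine ⟨hx, ?_⟩
  have h1 := one_add_mul_le_pow (a := xx i r - 1) (by linarith) ((i + 1) ^ 2)
  have h2 : ((((i + 1) ^ 2 : ℕ) : ℝ)) * (xx i r - 1) = ((i : ℝ) + 1) * (r - (i + 1)) := by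
    unfold xx
    push_cast
    field_simp
  rw [h2] at h1
  have h3 : 1 + (J : ℝ) / 2 ≤ xx i r ^ ((i + 1) ^ 2) := by
    have h4 : (J : ℝ) / 2 ≤ ((i : ℝ) + 1) * (r - (i + 1)) := by
      nlinarith [mul_nonneg hi0 (sub_nonneg.2 hi), mul_nonneg (by linarith : (0:ℝ) ≤ (i:ℝ)+1) (sub_nonneg.2 hr)]
    have h5 : 1 + (xx i r - 1) = xx i r := by ring
    rw [h5] at h1
    linarith
  have h6 : th J * (1 + (J : ℝ) / 2) = 1 := by
    unfold th
    field_simp
    ring
  calc (1 : ℝ) = th J * (1 + (J : ℝ) / 2) := h6.symm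
    _ ≤ _ := mul_le_mul_of_nonneg_left h3 (th_pos J).le

lemma right_pow {i J : ℕ} (h : J + 1 ≤ i) {r : ℝ} (hr0 : 0 < r) (hr : r ≤ (J : ℝ) + 3 / 2) :
    xx i r ≤ 1 ∧ 0 < xx i r ∧ xx i r ^ ((i + 1) ^ 2) ≤ th (J + 2) := by
  have hi : (J : ℝ) + 1 ≤ i := by exact_mod_cast h
  have hJ0 : (0 : ℝ) ≤ J := Nat.cast_nonneg J
  have hx : xx i r ≤ 1 := by
    unfold xx
    rw [div_le_one (by positivity)]
    linarith
  have hx0 : 0 < xx i r := by
    unfold xx
    positivity
  refine ⟨hx, hx0, ?_⟩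
  set δ : ℝ := 1 - xx i r with hδ
  have hδ0 : 0 ≤ δ := by rw [hδ]; linarith
  have h1 := one_add_mul_le_pow (a := δ) (by linarith) ((i + 1) ^ 2)
  have h2 : ((((i + 1) ^ 2 : ℕ) : ℝ)) * δ = ((i : ℝ) + 1) * ((i + 1) - r) := by
    rw [hδ]
    unfold xx
    push_cast
    field_simp
  rw [h2] at h1
  have h4 : ((J : ℝ) + 2) / 2 ≤ ((i : ℝ) + 1) * ((i + 1) - r) := by
    have h5 : (1 : ℝ) / 2 ≤ (i + 1) - r := by linarith
    nlinarith
  have h6 : (xx i r * (1 + δ)) ^ ((i + 1) ^ 2) ≤ 1 := by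
    apply pow_le_one₀ (by positivity)
    rw [hδ]
    nlinarith
  rw [mul_pow] at h6
  have h7 : 1 + ((J : ℝ) + 2) / 2 ≤ (1 + δ) ^ ((i + 1) ^ 2) := by linarith
  have h8 : xx i r ^ ((i + 1) ^ 2) * (1 + ((J : ℝ) + 2) / 2) ≤ 1 :=
    (mul_le_mul_of_nonneg_left h7 (by positivity)).trans h6
  unfold th
  rw [le_div_iff₀ (by positivity)]
  push_cast
  linarith

lemma AA_left_succ {i J : ℕ} (h : i < J) {r : ℝ} (hr : (J : ℝ) + 1 / 2 ≤ r) :
    AA D i r ≤ th J * AA D (i + 1) r := by
  obtain ⟨hx, hx2⟩ := left_pow h hr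
  have hr0 : 0 < r := by
    have : (0 : ℝ) ≤ J := Nat.cast_nonneg J
    linarith
  rw [AA_succ]
  have h1 : xx i r ^ ((i + 1) ^ 2) ≤ xx i r ^ (2 * gap D i) :=
    pow_le_pow_right₀ hx (by unfold gap; omega)
  have h2 : 1 ≤ th J * xx i r ^ (2 * gap D i) :=
    hx2.trans (mul_le_mul_of_nonneg_left h1 (th_pos J).le)
  have h3 := AA_pos (D := D) i hr0
  calc AA D i r = AA D i r * 1 := (mul_one _).symm
    _ ≤ AA D i r * (th J * xx i r ^ (2 * gap D i)) := mul_le_mul_of_nonneg_left h2 h3.le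
    _ = _ := by ring

lemma AA_left {J : ℕ} {r : ℝ} (hr : (J : ℝ) + 1 / 2 ≤ r) (k : ℕ) :
    ∀ i : ℕ, i + k = J → AA D i r ≤ th J ^ k * AA D J r := by
  induction k with
  | zero =>
    intro i hi
    rw [add_zero] at hi
    subst hi
    simp
  | succ k ih =>
    intro i hi
    have h1 := ih (i + 1) (by omega)
    have h2 := AA_left_succ (D := D) (i := i) (J := J) (by omega) hr
    calc AA D i r ≤ th J * AA D (i + 1) r := h2
      _ ≤ th J * (th J ^ k * AA D J r) := mul_le_mul_of_nonneg_left h1 (th_pos J).le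
      _ = _ := by ring

/-- The strongest term of an earlier cluster. -/
lemma AA_left_strong {i J : ℕ} (h : i < J) {r : ℝ} (hr : (J : ℝ) + 1 / 2 ≤ r) {e : ℕ}
    (he : e ≤ gap D i + 2 * D) :
    AA D i r * xx i r ^ e ≤ th J ^ (J - i) * AA D J r := by
  obtain ⟨hx, hx2⟩ := left_pow h hr
  have hr0 : 0 < r := by
    have : (0 : ℝ) ≤ J := Nat.cast_nonneg J
    linarith
  have h3 := AA_pos (D := D) i hr0
  have h4 := AA_left (D := D) hr (J - i - 1) (i + 1) (by omega)
  have h5 : AA D i r * xx i r ^ e ≤ th J * AA D (i + 1) r := by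
    rw [AA_succ]
    have h6 : xx i r ^ e * xx i r ^ ((i + 1) ^ 2) ≤ xx i r ^ (2 * gap D i) := by
      rw [← pow_add]
      apply pow_le_pow_right₀ hx
      unfold gap at he ⊢
      omega
    have h7 : xx i r ^ e ≤ th J * xx i r ^ (2 * gap D i) := by
      calc xx i r ^ e = xx i r ^ e * 1 := (mul_one _).symm
        _ ≤ xx i r ^ e * (th J * xx i r ^ ((i + 1) ^ 2)) :=
          mul_le_mul_of_nonneg_left hx2 (by positivity)
        _ = th J * (xx i r ^ e * xx i r ^ ((i + 1) ^ 2)) := by ring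
        _ ≤ _ := mul_le_mul_of_nonneg_left h6 (th_pos J).le
    calc AA D i r * xx i r ^ e ≤ AA D i r * (th J * xx i r ^ (2 * gap D i)) :=
          mul_le_mul_of_nonneg_left h7 h3.le
      _ = _ := by ring
  calc AA D i r * xx i r ^ e ≤ th J * AA D (i + 1) r := h5
    _ ≤ th J * (th J ^ (J - i - 1) * AA D J r) := mul_le_mul_of_nonneg_left h4 (th_pos J).le
    _ = th J ^ (J - i) * AA D J r := by
      rw [← mul_assoc, ← pow_succ']
      congr 2
      omega

lemma AA_right {J : ℕ} {r : ℝ} (hr0 : 0 < r) (hr : r ≤ (J : ℝ) + 3 / 2) (k : ℕ) :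
    AA D (J + 1 + k) r ≤ th (J + 2) ^ k * AA D (J + 1) r := by
  induction k with
  | zero => simp
  | succ k ih =>
    obtain ⟨h1, h2, h3⟩ := right_pow (i := J + 1 + k) (J := J) (by omega) hr0 hr
    have h4 : J + 1 + (k + 1) = (J + 1 + k) + 1 := by ring
    rw [h4, AA_succ]
    have h5 : xx (J + 1 + k) r ^ (2 * gap D (J + 1 + k)) ≤ th (J + 2) :=
      (pow_le_pow_of_le_one h2.le h1 (by unfold gap; omega)).trans h3
    have h6 := AA_pos (D := D) (J + 1 + k) hr0
    calc AA D (J + 1 + k) r * xx (J + 1 + k) r ^ (2 * gap D (J + 1 + k))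
        ≤ (th (J + 2) ^ k * AA D (J + 1) r) * th (J + 2) :=
          mul_le_mul ih h5 (by positivity) (h6.le.trans ih)
      _ = _ := by ring

end Radii


section Construction

variable (D : ℕ) (b K a : ℝ)

/-- The index set of the monomials: cluster, kind (even or odd group), position in the group. -/
abbrev Idx (D : ℕ) : Type := ℕ × (Bool × Fin (2 * D - 1))

/-- The exponent of a monomial. -/
def ex (i : Idx D) : ℕ := expN D i.1 + (bif i.2.1 then gap D i.1 else 0) + (i.2.2 : ℕ)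

/-- The coefficient of a monomial. -/
noncomputable def cf (i : Idx D) : ℂ :=
  (-1) ^ i.1 * (cc D i.1 : ℂ) *
    (bif i.2.1 then (b : ℂ) * coef D (wt K a 2) i.2.2 / ((i.1 : ℂ) + 1) ^ (gap D i.1 + i.2.2)
      else coef D (wt K a (i.1 % 2)) i.2.2 / ((i.1 : ℂ) + 1) ^ (i.2.2 : ℕ))

/-- The entire function. -/
noncomputable def ff (z : ℂ) : ℂ := ∑' i : Idx D, cf D b K a i * z ^ ex D i

/-- Its Taylor coefficients. -/
noncomputable def aa : ℕ → ℂ := Function.extend (ex D) (cf D b K a) 0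

variable {D b K a}

lemma expN_add_le {i j : ℕ} (h : i < j) : expN D i + 2 * gap D i ≤ expN D j := by
  induction j with
  | zero => omega
  | succ j ih =>
    simp only [expN]
    rcases Nat.lt_succ_iff_lt_or_eq.1 h with h1 | h1
    · have := ih h1
      omega
    · subst h1
      omega

lemma ex_inj : Function.Injective (ex D) := by
  have hgap : ∀ j, 2 * D ≤ gap D j := fun j => by unfold gap; omega
  have key : ∀ i j : Idx D, i.1 < j.1 → ex D i < ex D j := by
    rintro ⟨i, t, m⟩ ⟨j, t', m'⟩ h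
    have h1 := expN_add_le (D := D) h
    have h2 := m.2
    have h3 := hgap i
    simp only [ex] at h h1 ⊢
    cases t <;> simp only [cond_true, cond_false] <;> omega
  rintro ⟨i, t, m⟩ ⟨j, t', m'⟩ h
  rcases lt_trichotomy i j with h1 | h1 | h1
  · exact absurd h (key _ _ h1).ne
  · subst h1
    have h2 := m.2
    have h2' := m'.2
    have h3 := hgap i
    simp only [ex] at h
    have h4 : t = t' := by
      cases t <;> cases t' <;> simp only [cond_true, cond_false] at h <;> first | rfl | omega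
    subst h4
    have h5 : m = m' := by
      apply Fin.ext
      omega
    rw [h5]
  · exact absurd h (key _ _ h1).ne'

lemma term_le (hD : 3 ≤ D) (hb : 0 < b) (hK : 0 ≤ K) (ha : 0 ≤ a)
    (hs : K + (D - 3) * a = D) (i : Idx D) {r : ℝ} (hr : 0 < r) :
    ‖cf D b K a i‖ * r ^ ex D i ≤ AA D i.1 r *
      (bif i.2.1 then b * xx i.1 r ^ (gap D i.1 + i.2.2) else xx i.1 r ^ (i.2.2 : ℕ)) := by
  have hD0 : D ≠ 0 := by omega
  obtain ⟨j, t, m⟩ := i
  have hc := cc_pos (D := D) j
  have hj : ‖((j : ℂ) + 1)‖ = (j : ℝ) + 1 := by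
    rw [← Nat.cast_succ, Complex.norm_natCast]
    push_cast
    rfl
  have h1 : ∀ c < 3, ∀ m, ‖coef D (wt K a c) m‖ ≤ 1 := fun c hc m =>
    coef_norm_le hD0 (wt_nonneg hK ha c) (wt_sum hD hs hc) m
  have hj0 : (0 : ℝ) < (j : ℝ) + 1 := by positivity
  cases t
  · simp only [cf, ex, cond_false, norm_mul, norm_pow, norm_neg, norm_one, one_pow, one_mul,
      Complex.norm_real, Real.norm_eq_abs, abs_of_pos hc, norm_div, hj, add_zero]
    unfold AA xx
    rw [div_pow, pow_add]
    have h2 := h1 (j % 2) (by omega) m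
    calc cc D j * (‖coef D (wt K a (j % 2)) m‖ / ((j : ℝ) + 1) ^ (m : ℕ))
          * (r ^ expN D j * r ^ (m : ℕ))
        ≤ cc D j * (1 / ((j : ℝ) + 1) ^ (m : ℕ)) * (r ^ expN D j * r ^ (m : ℕ)) := by gcongr
      _ = _ := by ring
  · simp only [cf, ex, cond_true, norm_mul, norm_pow, norm_neg, norm_one, one_pow, one_mul,
      Complex.norm_real, Real.norm_eq_abs, abs_of_pos hc, norm_div, hj, abs_of_pos hb]
    unfold AA xx
    rw [div_pow, pow_add r (expN D j + gap D j), pow_add r (expN D j), pow_add r (gap D j)]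
    have h2 := h1 2 (by omega) m
    calc cc D j * (b * ‖coef D (wt K a 2) m‖ / ((j : ℝ) + 1) ^ (gap D j + m))
          * (r ^ expN D j * r ^ gap D j * r ^ (m : ℕ))
        ≤ cc D j * (b * 1 / ((j : ℝ) + 1) ^ (gap D j + m))
          * (r ^ expN D j * r ^ gap D j * r ^ (m : ℕ)) := by gcongr
      _ = _ := by ring

/-- The number of terms in a group, weighted. -/
noncomputable def QQ (D : ℕ) (b : ℝ) : ℝ := ((2 * D - 1 : ℕ) : ℝ) * (1 + b)

lemma QQ_nonneg (hb : 0 < b) : 0 ≤ QQ D b := by unfold QQ; positivity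

lemma sum_cond (c : Bool → Fin (2 * D - 1) → ℝ) {B : ℝ}
    (h0 : ∀ m, c false m ≤ B) (h1 : ∀ m, c true m ≤ b * B) :
    ∑ y : Bool × Fin (2 * D - 1), c y.1 y.2 ≤ QQ D b * B := by
  rw [Fintype.sum_prod_type]
  simp only [Fintype.univ_bool, mem_singleton, Bool.true_eq_false, not_false_eq_true,
    sum_insert, sum_singleton]
  have h2 : ∑ m, c false m ≤ ((2 * D - 1 : ℕ) : ℝ) * B := by
    calc _ ≤ ∑ _m : Fin (2 * D - 1), B := sum_le_sum fun m _ => h0 m
      _ = _ := by rw [sum_const, card_univ, Fintype.card_fin, nsmul_eq_mul]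
  have h3 : ∑ m, c true m ≤ ((2 * D - 1 : ℕ) : ℝ) * (b * B) := by
    calc _ ≤ ∑ _m : Fin (2 * D - 1), b * B := sum_le_sum fun m _ => h1 m
      _ = _ := by rw [sum_const, card_univ, Fintype.card_fin, nsmul_eq_mul]
  unfold QQ
  linarith

lemma group_left (hD : 3 ≤ D) (hb : 0 < b) (hK : 0 ≤ K) (ha : 0 ≤ a)
    (hs : K + (D - 3) * a = D) {j J : ℕ} (h : j < J) {r : ℝ} (hr : (J : ℝ) + 1 / 2 ≤ r) :
    ∑ y : Bool × Fin (2 * D - 1), ‖cf D b K a (j, y)‖ * r ^ ex D (j, y)
      ≤ QQ D b * (th J ^ (J - j) * AA D J r) := by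
  have hr0 : 0 < r := by
    have : (0 : ℝ) ≤ J := Nat.cast_nonneg J
    linarith
  refine sum_cond (fun t m => ‖cf D b K a (j, (t, m))‖ * r ^ ex D (j, (t, m))) ?_ ?_
  · intro m
    refine (term_le hD hb hK ha hs _ hr0).trans ?_
    simp only [cond_false]
    exact AA_left_strong h hr (by have := m.2; omega)
  · intro m
    refine (term_le hD hb hK ha hs _ hr0).trans ?_
    simp only [cond_true]
    have := AA_left_strong (D := D) h hr (e := gap D j + m) (by have := m.2; omega)
    calc AA D j r * (b * xx j r ^ (gap D j + (m : ℕ)))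
        = b * (AA D j r * xx j r ^ (gap D j + (m : ℕ))) := by ring
      _ ≤ _ := mul_le_mul_of_nonneg_left this hb.le

lemma group_right (hD : 3 ≤ D) (hb : 0 < b) (hK : 0 ≤ K) (ha : 0 ≤ a)
    (hs : K + (D - 3) * a = D) {j J : ℕ} (h : J + 1 ≤ j) {r : ℝ} (hr0 : 0 < r)
    (hr : r ≤ (J : ℝ) + 3 / 2) :
    ∑ y : Bool × Fin (2 * D - 1), ‖cf D b K a (j, y)‖ * r ^ ex D (j, y)
      ≤ QQ D b * AA D j r := by
  obtain ⟨h1, h2, -⟩ := right_pow h hr0 hr
  have hA := AA_pos (D := D) j hr0
  refine sum_cond (fun t m => ‖cf D b K a (j, (t, m))‖ * r ^ ex D (j, (t, m))) ?_ ?_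
  · intro m
    refine (term_le hD hb hK ha hs _ hr0).trans ?_
    simp only [cond_false]
    calc AA D j r * xx j r ^ (m : ℕ) ≤ AA D j r * 1 :=
          mul_le_mul_of_nonneg_left (pow_le_one₀ h2.le h1) hA.le
      _ = _ := mul_one _
  · intro m
    refine (term_le hD hb hK ha hs _ hr0).trans ?_
    simp only [cond_true]
    calc AA D j r * (b * xx j r ^ (gap D j + (m : ℕ))) ≤ AA D j r * (b * 1) := by
          gcongr
          exact pow_le_one₀ h2.le h1
      _ = _ := by ring

lemma summable_AA {J : ℕ} {r : ℝ} (hr0 : 0 < r) (hr : r ≤ (J : ℝ) + 3 / 2) :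
    Summable (fun j => AA D j r) := by
  rw [← summable_nat_add_iff (J + 1)]
  have h1 : Summable (fun k => th (J + 2) ^ k * AA D (J + 1) r) := by
    apply Summable.mul_right
    apply summable_geometric_of_lt_one (th_pos _).le
    unfold th
    rw [div_lt_one (by positivity)]
    push_cast
    have : (0 : ℝ) ≤ J := Nat.cast_nonneg J
    linarith
  refine Summable.of_nonneg_of_le (fun k => (AA_pos _ hr0).le) (fun k => ?_) h1
  rw [add_comm k (J + 1)]
  exact AA_right hr0 hr k

lemma summable_terms (hD : 3 ≤ D) (hb : 0 < b) (hK : 0 ≤ K) (ha : 0 ≤ a)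
    (hs : K + (D - 3) * a = D) {r : ℝ} (hr0 : 0 < r) :
    Summable (fun i : Idx D => ‖cf D b K a i‖ * r ^ ex D i) := by
  obtain ⟨J, hJ⟩ := exists_nat_ge r
  have hr : r ≤ (J : ℝ) + 3 / 2 := by linarith
  rw [summable_prod_of_nonneg (fun i => by positivity)]
  refine ⟨fun j => Summable.of_finite, ?_⟩
  simp only [tsum_fintype]
  rw [← summable_nat_add_iff (J + 1)]
  have h1 : Summable (fun k => QQ D b * AA D (k + (J + 1)) r) :=
    ((summable_nat_add_iff (J + 1)).2 (summable_AA hr0 hr)).mul_left _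
  refine Summable.of_nonneg_of_le (fun k => sum_nonneg fun y _ => by positivity) (fun k => ?_) h1
  exact group_right hD hb hK ha hs (by omega) hr0 hr

lemma hasSum_ff (hD : 3 ≤ D) (hb : 0 < b) (hK : 0 ≤ K) (ha : 0 ≤ a)
    (hs : K + (D - 3) * a = D) (z : ℂ) :
    HasSum (fun i : Idx D => cf D b K a i * z ^ ex D i) (ff D b K a z) := by
  have h1 := summable_terms hD hb hK ha hs (r := ‖z‖ + 1) (by positivity)
  apply Summable.hasSum
  refine Summable.of_norm_bounded h1 fun i => ?_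
  rw [norm_mul, norm_pow]
  gcongr
  linarith

lemma hasSum_aa (hD : 3 ≤ D) (hb : 0 < b) (hK : 0 ≤ K) (ha : 0 ≤ a)
    (hs : K + (D - 3) * a = D) (z : ℂ) :
    HasSum (fun n : ℕ => aa D b K a n * z ^ n) (ff D b K a z) := by
  have h1 := hasSum_ff hD hb hK ha hs z
  have h2 : (fun i : Idx D => cf D b K a i * z ^ ex D i)
      = (fun n : ℕ => aa D b K a n * z ^ n) ∘ ex D := by
    funext i
    simp only [Function.comp_apply, aa]
    rw [ex_inj.extend_apply]
  rw [h2, ex_inj.hasSum_iff] at h1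
  · exact h1
  · intro n hn
    unfold aa
    rw [Function.extend_apply' _ _ _ (by simpa using hn)]
    simp

lemma differentiable_ff (hD : 3 ≤ D) (hb : 0 < b) (hK : 0 ≤ K) (ha : 0 ≤ a)
    (hs : K + (D - 3) * a = D) : Differentiable ℂ (ff D b K a) := by
  intro z
  have h1 := summable_terms hD hb hK ha hs (r := ‖z‖ + 1) (by positivity)
  have h2 : DifferentiableOn ℂ (fun w => ∑' i : Idx D, cf D b K a i * w ^ ex D i)
      (Metric.ball 0 (‖z‖ + 1)) := by
    refine Complex.differentiableOn_tsum_of_summable_norm h1 (fun i => ?_) Metric.isOpen_ball ?_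
    · fun_prop
    · intro i w hw
      rw [mem_ball_zero_iff] at hw
      rw [norm_mul, norm_pow]
      gcongr
  exact h2.differentiableAt (Metric.isOpen_ball.mem_nhds (by simp))

end Construction


section Estimates

variable {D : ℕ} {b K a : ℝ}

/-- The sum of the absolute deviations of small powers of `x` from `1`. -/
noncomputable def dev (D : ℕ) (x : ℝ) : ℝ := ∑ m ∈ range (2 * D - 1), |x ^ m - 1|

lemma dev_nonneg (x : ℝ) : 0 ≤ dev D x := sum_nonneg fun _ _ => abs_nonneg _

lemma le_dev {m : ℕ} (hm : m < 2 * D - 1) (x : ℝ) : |x ^ m - 1| ≤ dev D x :=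
  single_le_sum (f := fun m => |x ^ m - 1|) (fun _ _ => abs_nonneg _) (mem_range.2 hm)

lemma pol_dev {w : ℕ → ℝ} (hw : ∀ m, ‖coef D w m‖ ≤ 1) {u : ℂ} (hu : ‖u‖ = 1) (x : ℝ) :
    ‖pol D w ((x : ℂ) * u) - pol D w u‖ ≤ dev D x := by
  unfold pol dev
  rw [← sum_sub_distrib]
  refine (norm_sum_le _ _).trans (sum_le_sum fun m _ => ?_)
  have h1 : coef D w m * ((x : ℂ) * u) ^ m - coef D w m * u ^ m
      = coef D w m * (((x ^ m - 1 : ℝ) : ℂ) * u ^ m) := by
    push_cast
    ring
  rw [h1, norm_mul, norm_mul, norm_pow, hu, one_pow, mul_one, Complex.norm_real,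
    Real.norm_eq_abs]
  calc ‖coef D w m‖ * |x ^ m - 1| ≤ 1 * |x ^ m - 1| :=
        mul_le_mul_of_nonneg_right (hw m) (abs_nonneg _)
    _ = _ := one_mul _

/-- One cluster. -/
lemma group_eq (j : ℕ) (z : ℂ) :
    ∑ y : Bool × Fin (2 * D - 1), cf D b K a (j, y) * z ^ ex D (j, y)
      = (-1) ^ j * (cc D j : ℂ) * z ^ expN D j *
        (pol D (wt K a (j % 2)) (z / ((j : ℂ) + 1))
          + (b : ℂ) * pol D (wt K a 2) (z / ((j : ℂ) + 1)) * (z / ((j : ℂ) + 1)) ^ gap D j) := by
  rw [Fintype.sum_prod_type]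
  simp only [Fintype.univ_bool, mem_singleton, Bool.true_eq_false, not_false_eq_true,
    sum_insert, sum_singleton, cf, ex, cond_true, cond_false]
  unfold pol
  rw [← Fin.sum_univ_eq_sum_range (fun m => coef D (wt K a (j % 2)) m * (z / ((j : ℂ) + 1)) ^ m),
    ← Fin.sum_univ_eq_sum_range (fun m => coef D (wt K a 2) m * (z / ((j : ℂ) + 1)) ^ m),
    mul_add, add_comm, mul_sum, mul_sum, sum_mul, mul_sum]
  congr 1
  · refine sum_congr rfl fun m _ => ?_
    rw [add_zero, pow_add, div_pow]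
    ring
  · refine sum_congr rfl fun m _ => ?_
    rw [pow_add, pow_add, pow_add, div_pow, div_pow]
    have : ((j : ℂ) + 1) ≠ 0 := Nat.cast_add_one_ne_zero j
    field_simp

lemma even_eq (j : ℕ) (z : ℂ) :
    ∑ m : Fin (2 * D - 1), cf D b K a (j, (false, m)) * z ^ ex D (j, (false, m))
      = (-1) ^ j * (cc D j : ℂ) * z ^ expN D j *
        pol D (wt K a (j % 2)) (z / ((j : ℂ) + 1)) := by
  simp only [cf, ex, cond_false]
  unfold pol
  rw [← Fin.sum_univ_eq_sum_range (fun m => coef D (wt K a (j % 2)) m * (z / ((j : ℂ) + 1)) ^ m),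
    mul_sum]
  refine sum_congr rfl fun m _ => ?_
  rw [add_zero, pow_add, div_pow]
  ring

/-- The main part near the `J`-th cluster. -/
noncomputable def mainp (D : ℕ) (b K a : ℝ) (J : ℕ) (z : ℂ) : ℂ :=
  (-1) ^ J * (cc D J : ℂ) * z ^ expN D J *
    (pol D (wt K a (J % 2)) (z / ((J : ℂ) + 1))
      + (b : ℂ) * pol D (wt K a 2) (z / ((J : ℂ) + 1)) * (z / ((J : ℂ) + 1)) ^ gap D J
      - pol D (wt K a ((J + 1) % 2)) (z / ((J : ℂ) + 1 + 1)) *
        ((z / ((J : ℂ) + 1)) ^ gap D J) ^ 2)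

lemma mainp_eq (J : ℕ) (z : ℂ) :
    mainp D b K a J z
      = ∑ y : Bool × Fin (2 * D - 1), cf D b K a (J, y) * z ^ ex D (J, y)
        + ∑ m : Fin (2 * D - 1), cf D b K a (J + 1, (false, m)) * z ^ ex D (J + 1, (false, m)) := by
  rw [group_eq, even_eq]
  unfold mainp
  simp only [cc, expN]
  have h1 : ((J : ℂ) + 1) ≠ 0 := Nat.cast_add_one_ne_zero J
  push_cast
  rw [pow_succ (-1 : ℂ) J, pow_add z, ← pow_mul (z / ((J : ℂ) + 1)), mul_comm (gap D J) 2,
    div_pow z _ (2 * gap D J)]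
  ring

/-- Relative size of everything outside the main part. -/
noncomputable def far (D : ℕ) (b : ℝ) (J : ℕ) : ℝ := 8 * QQ D b / J

lemma geom_left (J : ℕ) (hJ : 1 ≤ J) : ∑ j ∈ range J, th J ^ (J - j) ≤ 2 / J := by
  have hJ0 : (0 : ℝ) < J := by exact_mod_cast hJ
  have h0 : 0 ≤ th J := (th_pos J).le
  have h1 : th J < 1 := by
    unfold th
    rw [div_lt_one (by positivity)]
    linarith
  have h2 : ∑ j ∈ range J, th J ^ (J - j) = ∑ j ∈ range J, th J ^ (j + 1) := by
    rw [← sum_range_reflect]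
    refine sum_congr rfl fun j hj => ?_
    rw [mem_range] at hj
    congr 1
    omega
  have h3 : ∑ j ∈ range J, th J ^ (j + 1) = th J * ∑ j ∈ range J, th J ^ j := by
    rw [mul_sum]
    refine sum_congr rfl fun j _ => ?_
    rw [pow_succ']
  have h4 : ∑ j ∈ range J, th J ^ j ≤ (1 - th J)⁻¹ := by
    rw [← tsum_geometric_of_lt_one h0 h1]
    exact (summable_geometric_of_lt_one h0 h1).sum_le_tsum _ (fun i _ => pow_nonneg h0 i)
  rw [h2, h3]
  calc th J * ∑ j ∈ range J, th J ^ j ≤ th J * (1 - th J)⁻¹ := mul_le_mul_of_nonneg_left h4 h0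
    _ = 2 / J := by
      unfold th
      have : (1 : ℝ) - 2 / ((J : ℝ) + 2) = J / (J + 2) := by
        field_simp
        ring
      rw [this]
      field_simp

lemma far_le (hD : 3 ≤ D) (hb : 0 < b) (hK : 0 ≤ K) (ha : 0 ≤ a)
    (hs : K + (D - 3) * a = D) {J : ℕ} (hJ : 1 ≤ J) {r : ℝ} (hr : (J : ℝ) + 1 / 2 ≤ r)
    (hr' : r ≤ (J : ℝ) + 3 / 2) {z : ℂ} (hz : ‖z‖ = r) :
    ‖ff D b K a z - mainp D b K a J z‖
      ≤ far D b J * (AA D J r * NN b (xx J r ^ gap D J)) := by
  have hJ0 : (0 : ℝ) < J := by exact_mod_cast hJ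
  have hr0 : 0 < r := by linarith
  have hQ : 0 ≤ QQ D b := QQ_nonneg hb
  have hS := hasSum_ff hD hb hK ha hs z
  have hSn := summable_terms hD hb hK ha hs (r := r) hr0
  -- group the sum by clusters
  set G : ℕ → ℂ := fun j => ∑ y : Bool × Fin (2 * D - 1), cf D b K a (j, y) * z ^ ex D (j, y)
    with hG
  set H : ℕ → ℝ := fun j => ∑ y : Bool × Fin (2 * D - 1), ‖cf D b K a (j, y)‖ * r ^ ex D (j, y)
    with hH
  have hGH : ∀ j, ‖G j‖ ≤ H j := by
    intro j
    refine (norm_sum_le _ _).trans (le_of_eq ?_)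
    refine sum_congr rfl fun y _ => ?_
    rw [norm_mul, norm_pow, hz]
  have hHs : Summable H := by
    have := (summable_prod_of_nonneg (fun i : Idx D => by positivity)).1 hSn
    simpa only [tsum_fintype] using this.2
  have hGs : Summable G := Summable.of_norm_bounded hHs hGH
  have hff : ff D b K a z = ∑' j, G j := by
    unfold ff
    rw [hS.summable.tsum_prod]
    simp only [tsum_fintype, hG]
  have hsplit : ff D b K a z = (∑ j ∈ range J, G j) + G J + G (J + 1) + ∑' k, G (k + (J + 2)) := by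
    rw [hff, ← hGs.sum_add_tsum_nat_add (J + 2), sum_range_succ, sum_range_succ]
  have hodd : G (J + 1) = (∑ m : Fin (2 * D - 1), cf D b K a (J + 1, (false, m))
      * z ^ ex D (J + 1, (false, m)))
      + ∑ m : Fin (2 * D - 1), cf D b K a (J + 1, (true, m)) * z ^ ex D (J + 1, (true, m)) := by
    simp only [hG]
    rw [Fintype.sum_prod_type]
    simp only [Fintype.univ_bool, mem_singleton, Bool.true_eq_false, not_false_eq_true,
      sum_insert, sum_singleton]
    rw [add_comm]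
  have hdiff : ff D b K a z - mainp D b K a J z = (∑ j ∈ range J, G j)
      + (∑ m : Fin (2 * D - 1), cf D b K a (J + 1, (true, m)) * z ^ ex D (J + 1, (true, m)))
      + ∑' k, G (k + (J + 2)) := by
    rw [hsplit, hodd, mainp_eq]
    ring
  -- the left part
  have hA := AA_pos (D := D) J hr0
  have hA1 := AA_pos (D := D) (J + 1) hr0
  have hleft : ‖∑ j ∈ range J, G j‖ ≤ QQ D b * AA D J r * (2 / J) := by
    calc ‖∑ j ∈ range J, G j‖ ≤ ∑ j ∈ range J, QQ D b * (th J ^ (J - j) * AA D J r) :=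
          (norm_sum_le _ _).trans (sum_le_sum fun j hj =>
            (hGH j).trans (group_left hD hb hK ha hs (mem_range.1 hj) hr))
      _ = QQ D b * AA D J r * ∑ j ∈ range J, th J ^ (J - j) := by
          rw [mul_sum]
          refine sum_congr rfl fun j _ => ?_
          ring
      _ ≤ _ := mul_le_mul_of_nonneg_left (geom_left J hJ) (by positivity)
  have hth : th (J + 2) ≤ 2 / J := by
    unfold th
    push_cast
    gcongr
    linarith
  have hmid : ‖∑ m : Fin (2 * D - 1), cf D b K a (J + 1, (true, m))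
      * z ^ ex D (J + 1, (true, m))‖ ≤ QQ D b * AA D (J + 1) r * (2 / J) := by
    obtain ⟨h1, h2, h3⟩ := right_pow (i := J + 1) (J := J) le_rfl hr0 hr'
    have hterm : ∀ m : Fin (2 * D - 1), ‖cf D b K a (J + 1, (true, m))
      * z ^ ex D (J + 1, (true, m))‖ ≤ b * (AA D (J + 1) r * (2 / J)) := by
      intro m
      rw [norm_mul, norm_pow, hz]
      refine (term_le hD hb hK ha hs _ hr0).trans ?_
      simp only [cond_true]
      have h4 : xx (J + 1) r ^ (gap D (J + 1) + (m : ℕ)) ≤ 2 / J := by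
        refine le_trans (pow_le_pow_of_le_one h2.le h1 ?_) (h3.trans hth)
        unfold gap
        omega
      calc AA D (J + 1) r * (b * xx (J + 1) r ^ (gap D (J + 1) + (m : ℕ)))
          ≤ AA D (J + 1) r * (b * (2 / J)) := by gcongr
        _ = _ := by ring
    calc _ ≤ ∑ _m : Fin (2 * D - 1), b * (AA D (J + 1) r * (2 / J)) :=
          (norm_sum_le _ _).trans (sum_le_sum fun m _ => hterm m)
      _ = ((2 * D - 1 : ℕ) : ℝ) * (b * (AA D (J + 1) r * (2 / J))) := by
          rw [sum_const, card_univ, Fintype.card_fin, nsmul_eq_mul]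
      _ ≤ _ := by
          unfold QQ
          have : 0 ≤ ((2 * D - 1 : ℕ) : ℝ) * (AA D (J + 1) r * (2 / J)) := by positivity
          nlinarith
  have hright : ‖∑' k, G (k + (J + 2))‖ ≤ QQ D b * AA D (J + 1) r * (2 / J) := by
    have hq0 := (th_pos (J + 2)).le
    have hq1 : th (J + 2) < 1 := by
      unfold th
      rw [div_lt_one (by positivity)]
      push_cast
      linarith
    have hgeo : HasSum (fun k : ℕ => QQ D b * AA D (J + 1) r * (th (J + 2) * th (J + 2) ^ k))
        (QQ D b * AA D (J + 1) r * (th (J + 2) * (1 - th (J + 2))⁻¹)) :=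
      ((hasSum_geometric_of_lt_one hq0 hq1).mul_left _).mul_left _
    have h1 : ‖∑' k, G (k + (J + 2))‖ ≤
        QQ D b * AA D (J + 1) r * (th (J + 2) * (1 - th (J + 2))⁻¹) := by
      refine tsum_of_norm_bounded hgeo fun k => ?_
      refine (hGH _).trans ((group_right hD hb hK ha hs (by omega) hr0 hr').trans ?_)
      have h2 := AA_right (D := D) hr0 hr' (k + 1)
      have h3 : J + 1 + (k + 1) = k + (J + 2) := by ring
      rw [h3] at h2
      calc QQ D b * AA D (k + (J + 2)) r ≤ QQ D b * (th (J + 2) ^ (k + 1) * AA D (J + 1) r) :=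
            mul_le_mul_of_nonneg_left h2 hQ
        _ = _ := by rw [pow_succ]; ring
    refine h1.trans (mul_le_mul_of_nonneg_left ?_ (by positivity))
    have h4 : th (J + 2) * (1 - th (J + 2))⁻¹ = 2 / ((J : ℝ) + 2) := by
      unfold th
      push_cast
      have : (1 : ℝ) - 2 / ((J : ℝ) + 2 + 2) = (J + 2) / (J + 2 + 2) := by
        field_simp
        ring
      rw [this]
      field_simp
    rw [h4]
    gcongr
    linarith
  -- combine
  have hA1' : AA D (J + 1) r = AA D J r * (xx J r ^ gap D J) ^ 2 := by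
    rw [AA_succ, ← pow_mul, mul_comm (gap D J) 2]
  set ρ := xx J r ^ gap D J with hρ
  have hN1 : 1 ≤ NN b ρ := le_max_left _ _
  have hN3 : ρ ^ 2 ≤ NN b ρ := (le_max_right _ _).trans (le_max_right _ _)
  rw [hdiff]
  have h5 : ‖(∑ j ∈ range J, G j)
      + (∑ m : Fin (2 * D - 1), cf D b K a (J + 1, (true, m)) * z ^ ex D (J + 1, (true, m)))
      + ∑' k, G (k + (J + 2))‖ ≤ QQ D b * AA D J r * (2 / J) + QQ D b * AA D (J + 1) r * (2 / J)
        + QQ D b * AA D (J + 1) r * (2 / J) := norm_add₃_le.trans (by gcongr)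
  refine h5.trans ?_
  rw [hA1']
  unfold far
  have h6 : 0 ≤ QQ D b * AA D J r * (2 / J) := by positivity
  calc QQ D b * AA D J r * (2 / J) + QQ D b * (AA D J r * ρ ^ 2) * (2 / J)
        + QQ D b * (AA D J r * ρ ^ 2) * (2 / J)
      = (QQ D b * AA D J r * (2 / J)) * (1 + 2 * ρ ^ 2) := by ring
    _ ≤ (QQ D b * AA D J r * (2 / J)) * (4 * NN b ρ) := by
        apply mul_le_mul_of_nonneg_left _ h6
        linarith
    _ = _ := by ring

end Estimates


section Uniqueness

lemma hasFPS {f : ℂ → ℂ} {a : ℕ → ℂ} (h : ∀ z, HasSum (fun n => a n * z ^ n) (f z)) :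
    HasFPowerSeriesAt f (FormalMultilinearSeries.ofScalars ℂ a) 0 := by
  refine ⟨1, ?_, zero_lt_one, ?_⟩
  · have h1 : ((1 : NNReal) : ENNReal) ≤ (FormalMultilinearSeries.ofScalars ℂ a).radius := by
      apply FormalMultilinearSeries.le_radius_of_summable
      simp only [FormalMultilinearSeries.ofScalars_norm, NNReal.coe_one, one_pow, mul_one]
      have := (h 1).summable.norm
      simpa using this
    simpa using h1
  · intro y _
    have h1 := h y
    simp only [zero_add]
    refine h1.congr_fun ?_ |> fun h => h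
    intro n
    simp [smul_eq_mul, mul_comm]

lemma coeff_unique {f : ℂ → ℂ} {a a' : ℕ → ℂ} (h : ∀ z, HasSum (fun n => a n * z ^ n) (f z))
    (h' : ∀ z, HasSum (fun n => a' n * z ^ n) (f z)) : a = a' :=
  FormalMultilinearSeries.ofScalars_series_injective (𝕜 := ℂ) ℂ
    ((hasFPS h).eq_formalMultilinearSeries (hasFPS h'))

/-- The `n`-th Taylor coefficient of `f` at the origin. -/
noncomputable def taylorCoeff (f : ℂ → ℂ) (n : ℕ) : ℂ := iteratedDeriv n f 0 / (n.factorial : ℂ)

lemma taylorCoeff_eq {f : ℂ → ℂ} (hf : Differentiable ℂ f) {a : ℕ → ℂ}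
    (h : ∀ z, HasSum (fun n => a n * z ^ n) (f z)) : taylorCoeff f = a := by
  refine coeff_unique (f := f) (fun z => ?_) h
  have h1 := Complex.hasSum_taylorSeries_of_entire hf 0 z
  refine h1.congr_fun ?_ |> fun h => h
  intro n
  unfold taylorCoeff
  simp only [sub_zero, smul_eq_mul]
  ring

lemma not_poly {f : ℂ → ℂ} {a : ℕ → ℂ} (h : ∀ z, HasSum (fun n => a n * z ^ n) (f z))
    (hinf : ∀ N, ∃ n, N ≤ n ∧ a n ≠ 0) : ¬ ∃ p : Polynomial ℂ, ∀ z, f z = p.eval z := by
  rintro ⟨p, hp⟩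
  have h1 : ∀ z, HasSum (fun n => p.coeff n * z ^ n) (f z) := by
    intro z
    rw [hp z, Polynomial.eval_eq_sum_range]
    refine hasSum_sum_of_ne_finset_zero fun n hn => ?_
    rw [mem_range, not_lt] at hn
    rw [Polynomial.coeff_eq_zero_of_natDegree_lt (by omega), zero_mul]
  have h2 := coeff_unique h h1
  obtain ⟨n, hn, hn0⟩ := hinf (p.natDegree + 1)
  rw [h2] at hn0
  exact hn0 (Polynomial.coeff_eq_zero_of_natDegree_lt (by omega))

end Uniqueness

/-- The maximum term of `f` at radius `r`. -/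
noncomputable def maxTerm (f : ℂ → ℂ) (r : ℝ) : ℝ := ⨆ n : ℕ, ‖taylorCoeff f n‖ * r ^ n

/-- The maximum modulus of `f` on the circle of radius `r`. -/
noncomputable def maxModulus (f : ℂ → ℂ) (r : ℝ) : ℝ :=
  sSup ((fun z => ‖f z‖) '' Metric.sphere (0 : ℂ) r)

section Final

variable {D : ℕ} {b K a : ℝ}

/-- The total relative error. -/
noncomputable def err (D : ℕ) (b : ℝ) (J : ℕ) (r : ℝ) : ℝ :=
  2 * dev D (xx J r) + dev D (xx (J + 1) r) + far D b J

/-- The model of the main part on the circle. -/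
noncomputable def core (D : ℕ) (b K a : ℝ) (J : ℕ) (u W : ℂ) : ℂ :=
  pol D (wt K a (J % 2)) u + (b : ℂ) * pol D (wt K a 2) u * W
    - pol D (wt K a ((J + 1) % 2)) u * W ^ 2

lemma mainp_core (hD : 3 ≤ D) (hb : 0 < b) (hK : 0 ≤ K) (ha : 0 ≤ a)
    (hs : K + (D - 3) * a = D) (J : ℕ) {r : ℝ} (hr0 : 0 < r) {u : ℂ} (hu : ‖u‖ = 1) :
    ∃ (v W : ℂ), ‖v‖ = AA D J r ∧ ‖W‖ = xx J r ^ gap D J ∧
      ‖mainp D b K a J (r * u) - v * core D b K a J u W‖
        ≤ (2 * dev D (xx J r) + dev D (xx (J + 1) r)) * (AA D J r * NN b (xx J r ^ gap D J)) := by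
  have hD0 : D ≠ 0 := by omega
  have hc := cc_pos (D := D) J
  have hA := AA_pos (D := D) J hr0
  have hj : ‖((J : ℂ) + 1)‖ = (J : ℝ) + 1 := by
    rw [← Nat.cast_succ, Complex.norm_natCast]
    push_cast
    rfl
  set v : ℂ := (-1) ^ J * (cc D J : ℂ) * (r * u) ^ expN D J with hv
  set W : ℂ := ((r * u) / ((J : ℂ) + 1)) ^ gap D J with hW
  have hvn : ‖v‖ = AA D J r := by
    rw [hv]
    unfold AA
    simp only [norm_mul, norm_pow, norm_neg, norm_one, one_pow, one_mul, Complex.norm_real,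
      Real.norm_eq_abs, abs_of_pos hc, abs_of_pos hr0, hu, mul_one]
  have hWn : ‖W‖ = xx J r ^ gap D J := by
    rw [hW]
    unfold xx
    simp only [norm_mul, norm_pow, norm_div, Complex.norm_real, Real.norm_eq_abs, abs_of_pos hr0,
      hu, mul_one, hj]
  refine ⟨v, W, hvn, hWn, ?_⟩
  have hx1 : (r * u) / ((J : ℂ) + 1) = (xx J r : ℂ) * u := by
    unfold xx
    push_cast
    ring
  have hx2 : (r * u) / ((J : ℂ) + 1 + 1) = (xx (J + 1) r : ℂ) * u := by
    unfold xx
    push_cast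
    ring
  have hcoef : ∀ c < 3, ∀ m, ‖coef D (wt K a c) m‖ ≤ 1 := fun c hc m =>
    coef_norm_le hD0 (wt_nonneg hK ha c) (wt_sum hD hs hc) m
  have d1 := pol_dev (hcoef (J % 2) (by omega)) hu (xx J r)
  have d2 := pol_dev (hcoef 2 (by omega)) hu (xx J r)
  have d3 := pol_dev (hcoef ((J + 1) % 2) (by omega)) hu (xx (J + 1) r)
  have heq : mainp D b K a J (r * u) - v * core D b K a J u W
      = v * ((pol D (wt K a (J % 2)) ((xx J r : ℂ) * u) - pol D (wt K a (J % 2)) u)
        + (b : ℂ) * (pol D (wt K a 2) ((xx J r : ℂ) * u) - pol D (wt K a 2) u) * W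
        + -((pol D (wt K a ((J + 1) % 2)) ((xx (J + 1) r : ℂ) * u)
          - pol D (wt K a ((J + 1) % 2)) u) * W ^ 2)) := by
    unfold mainp core
    rw [← hx1, ← hx2, ← hv, ← hW]
    ring
  rw [heq, norm_mul, hvn]
  set ρ := xx J r ^ gap D J with hρ
  have hρ0 : 0 ≤ ρ := by rw [← hWn]; exact norm_nonneg _
  have hN1 : 1 ≤ NN b ρ := le_max_left _ _
  have hN2 : b * ρ ≤ NN b ρ := (le_max_left _ _).trans (le_max_right _ _)
  have hN3 : ρ ^ 2 ≤ NN b ρ := (le_max_right _ _).trans (le_max_right _ _)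
  have e1 := dev_nonneg (D := D) (xx J r)
  have e2 := dev_nonneg (D := D) (xx (J + 1) r)
  have h1 : ‖(pol D (wt K a (J % 2)) ((xx J r : ℂ) * u) - pol D (wt K a (J % 2)) u)
        + (b : ℂ) * (pol D (wt K a 2) ((xx J r : ℂ) * u) - pol D (wt K a 2) u) * W
        + -((pol D (wt K a ((J + 1) % 2)) ((xx (J + 1) r : ℂ) * u)
          - pol D (wt K a ((J + 1) % 2)) u) * W ^ 2)‖
      ≤ dev D (xx J r) + b * dev D (xx J r) * ρ + dev D (xx (J + 1) r) * ρ ^ 2 := by
    refine norm_add₃_le.trans ?_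
    rw [norm_neg, norm_mul, norm_mul, norm_mul, norm_pow W 2, hWn, Complex.norm_real,
      Real.norm_eq_abs, abs_of_pos hb]
    gcongr
  calc _ ≤ AA D J r * (dev D (xx J r) + b * dev D (xx J r) * ρ + dev D (xx (J + 1) r) * ρ ^ 2) :=
        mul_le_mul_of_nonneg_left h1 hA.le
    _ ≤ AA D J r * ((2 * dev D (xx J r) + dev D (xx (J + 1) r)) * NN b ρ) := by
        apply mul_le_mul_of_nonneg_left _ hA.le
        nlinarith [mul_le_mul_of_nonneg_left hN1 e1, mul_le_mul_of_nonneg_left hN2 e1,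
          mul_le_mul_of_nonneg_left hN3 e2]
    _ = _ := by ring

lemma ff_upper (hD : 3 ≤ D) (hb : 0 < b) (hK : 0 ≤ K) (ha : 0 ≤ a)
    (hs : K + (D - 3) * a = D) (haK : a * K0 b ≤ K) {J : ℕ} (hJ : 1 ≤ J) {r : ℝ}
    (hr : (J : ℝ) + 1 / 2 ≤ r) (hr' : r ≤ (J : ℝ) + 3 / 2) {z : ℂ} (hz : ‖z‖ = r) :
    ‖ff D b K a z‖ ≤ (K + err D b J r) * (AA D J r * NN b (xx J r ^ gap D J)) := by
  have hJ0 : (0 : ℝ) < J := by exact_mod_cast hJ
  have hr0 : 0 < r := by linarith
  have h1 := far_le hD hb hK ha hs hJ hr hr' hz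
  set u : ℂ := z / r with hu
  have hrc : (r : ℂ) ≠ 0 := by exact_mod_cast hr0.ne'
  have hzu : (r : ℂ) * u = z := by rw [hu]; field_simp
  have hu1 : ‖u‖ = 1 := by
    rw [hu, norm_div, hz, Complex.norm_real, Real.norm_eq_abs, abs_of_pos hr0, div_self hr0.ne']
  obtain ⟨v, W, hv, hW, h2⟩ := mainp_core hD hb hK ha hs J hr0 hu1
  rw [hzu] at h2
  have h3 : ‖core D b K a J u W‖ ≤ K * NN b ‖W‖ :=
    main_le hD hb hK ha haK (by omega) (by omega) (by omega) hu1 W
  rw [hW] at h3
  have hA := AA_pos (D := D) J hr0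
  have h4 : ‖v * core D b K a J u W‖ ≤ K * (AA D J r * NN b (xx J r ^ gap D J)) := by
    rw [norm_mul, hv]
    calc _ ≤ AA D J r * (K * NN b (xx J r ^ gap D J)) := mul_le_mul_of_nonneg_left h3 hA.le
      _ = _ := by ring
  have h5 : ff D b K a z = (ff D b K a z - mainp D b K a J z)
      + (mainp D b K a J z - v * core D b K a J u W) + v * core D b K a J u W := by ring
  rw [h5]
  refine norm_add₃_le.trans ?_
  unfold err
  linarith

lemma ff_lower (hD : 3 ≤ D) (hb : 0 < b) (hK : 0 ≤ K) (ha : 0 ≤ a)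
    (hs : K + (D - 3) * a = D) {J : ℕ} (hJ : 1 ≤ J) {r : ℝ}
    (hr : (J : ℝ) + 1 / 2 ≤ r) (hr' : r ≤ (J : ℝ) + 3 / 2) :
    ∃ z : ℂ, ‖z‖ = r ∧
      (K - err D b J r) * (AA D J r * NN b (xx J r ^ gap D J)) ≤ ‖ff D b K a z‖ := by
  have hD0 : D ≠ 0 := by omega
  have hJ0 : (0 : ℝ) < J := by exact_mod_cast hJ
  have hr0 : 0 < r := by linarith
  have hA := AA_pos (D := D) J hr0
  -- for each of the three peaks
  have main : ∀ l < D, ∀ t : ℝ, (∀ W : ℂ, ‖W‖ = xx J r ^ gap D J →
      ‖core D b K a J (pk D l) W‖ = K * t) → t = NN b (xx J r ^ gap D J) →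
      ∃ z : ℂ, ‖z‖ = r ∧
      (K - err D b J r) * (AA D J r * NN b (xx J r ^ gap D J)) ≤ ‖ff D b K a z‖ := by
    intro l hl t ht htN
    have hu1 := norm_pk hD0 l
    refine ⟨(r : ℂ) * pk D l, ?_, ?_⟩
    · rw [norm_mul, hu1, mul_one, Complex.norm_real, Real.norm_eq_abs, abs_of_pos hr0]
    · have hz : ‖(r : ℂ) * pk D l‖ = r := by
        rw [norm_mul, hu1, mul_one, Complex.norm_real, Real.norm_eq_abs, abs_of_pos hr0]
      have h1 := far_le hD hb hK ha hs hJ hr hr' hz
      obtain ⟨v, W, hv, hW, h2⟩ := mainp_core hD hb hK ha hs J hr0 hu1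
      have h3 := ht W hW
      rw [htN] at h3
      have h4 : ‖v * core D b K a J (pk D l) W‖ = K * (AA D J r * NN b (xx J r ^ gap D J)) := by
        rw [norm_mul, hv, h3]
        ring
      set z := (r : ℂ) * pk D l
      have h5 : v * core D b K a J (pk D l) W = ff D b K a z
          + -(ff D b K a z - mainp D b K a J z)
          + -(mainp D b K a J z - v * core D b K a J (pk D l) W) := by ring
      have h6 := norm_add₃_le (a := ff D b K a z) (b := -(ff D b K a z - mainp D b K a J z))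
        (c := -(mainp D b K a J z - v * core D b K a J (pk D l) W))
      rw [← h5, h4, norm_neg, norm_neg] at h6
      unfold err
      linarith
  set ρ := xx J r ^ gap D J with hρ
  have hρ0 : 0 ≤ ρ := by rw [hρ]; unfold xx; positivity
  have hJ2 : J % 2 < 2 := by omega
  have hJ2' : (J + 1) % 2 < 2 := by omega
  have hne : J % 2 ≠ (J + 1) % 2 := by omega
  have wself : ∀ c, wt K a c c = K := fun c => by unfold wt; simp
  have wother : ∀ c l, l < 3 → l ≠ c → wt K a c l = 0 := fun c l h1 h2 => by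
    unfold wt
    rw [if_neg h2, if_pos h1]
  have hpk : ∀ l, ‖pk D l ^ (D - 1)‖ = 1 := fun l => by rw [norm_pow, norm_pk hD0, one_pow]
  rcases le_total (max (b * ρ) (ρ ^ 2)) 1 with h1 | h1
  · -- first peak
    refine main (J % 2) (by omega) 1 (fun W hW => ?_) ?_
    · unfold core
      rw [pol_pk hD0 _ (by omega), pol_pk hD0 _ (by omega), pol_pk hD0 _ (by omega), wself,
        wother 2 (J % 2) (by omega) (by omega), wother ((J + 1) % 2) (J % 2) (by omega) hne]
      simp only [Complex.ofReal_zero, mul_zero, zero_mul, add_zero, sub_zero, norm_mul, hpk,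
        one_mul, mul_one, Complex.norm_real, Real.norm_eq_abs, abs_of_nonneg hK]
    · unfold NN
      rw [max_eq_left h1]
  · rcases le_total (ρ ^ 2) (b * ρ) with h2 | h2
    · refine main 2 (by omega) (b * ρ) (fun W hW => ?_) ?_
      · unfold core
        rw [pol_pk hD0 _ (by omega), pol_pk hD0 _ (by omega), pol_pk hD0 _ (by omega), wself,
          wother (J % 2) 2 (by omega) (by omega), wother ((J + 1) % 2) 2 (by omega) (by omega)]
        simp only [Complex.ofReal_zero, mul_zero, zero_mul, zero_add, sub_zero, norm_mul, hpk,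
          one_mul, Complex.norm_real, Real.norm_eq_abs, abs_of_nonneg hK, abs_of_pos hb, hW]
        ring
      · unfold NN
        rw [max_eq_left h2] at h1 ⊢
        rw [max_eq_right h1]
    · refine main ((J + 1) % 2) (by omega) (ρ ^ 2) (fun W hW => ?_) ?_
      · unfold core
        rw [pol_pk hD0 _ (by omega), pol_pk hD0 _ (by omega), pol_pk hD0 _ (by omega), wself,
          wother (J % 2) ((J + 1) % 2) (by omega) hne.symm,
          wother 2 ((J + 1) % 2) (by omega) (by omega)]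
        simp only [Complex.ofReal_zero, mul_zero, zero_mul, zero_add, zero_sub, norm_neg,
          norm_mul, norm_pow, norm_pk hD0, one_pow, one_mul, Complex.norm_real, Real.norm_eq_abs,
          abs_of_nonneg hK, hW]
      · unfold NN
        rw [max_eq_right h2] at h1 ⊢
        rw [max_eq_right h1]

/-- Upper factor for the maximum term. -/
noncomputable def upf (D : ℕ) (b : ℝ) (J : ℕ) (r : ℝ) : ℝ :=
  max (1 + dev D (xx J r)) ((1 + b) * th J)

lemma aa_upper (hD : 3 ≤ D) (hb : 0 < b) (hK : 0 ≤ K) (ha : 0 ≤ a)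
    (hs : K + (D - 3) * a = D) {J : ℕ} {r : ℝ}
    (hr : (J : ℝ) + 1 / 2 ≤ r) (hr' : r ≤ (J : ℝ) + 3 / 2) (n : ℕ) :
    ‖aa D b K a n‖ * r ^ n ≤ upf D b J r * (AA D J r * NN b (xx J r ^ gap D J)) := by
  have hJ0 : (0 : ℝ) ≤ J := Nat.cast_nonneg J
  have hr0 : 0 < r := by linarith
  have hA := AA_pos (D := D) J hr0
  set ρ := xx J r ^ gap D J with hρ
  have hx0 : 0 < xx J r := by unfold xx; positivity
  have hρ0 : 0 ≤ ρ := by rw [hρ]; positivity
  have hN1 : 1 ≤ NN b ρ := le_max_left _ _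
  have hN2 : b * ρ ≤ NN b ρ := (le_max_left _ _).trans (le_max_right _ _)
  have hN3 : ρ ^ 2 ≤ NN b ρ := (le_max_right _ _).trans (le_max_right _ _)
  have hU1 : 1 + dev D (xx J r) ≤ upf D b J r := le_max_left _ _
  have hU2 : (1 + b) * th J ≤ upf D b J r := le_max_right _ _
  have hdev := dev_nonneg (D := D) (xx J r)
  have hU0 : 1 ≤ upf D b J r := by linarith
  by_cases hn : ∃ i, ex D i = n
  · obtain ⟨i, rfl⟩ := hn
    have haa : aa D b K a (ex D i) = cf D b K a i := ex_inj.extend_apply _ _ _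
    rw [haa]
    refine (term_le hD hb hK ha hs i hr0).trans ?_
    obtain ⟨j, t, m⟩ := i
    have hm := m.2
    rcases lt_trichotomy j J with hj | hj | hj
    · -- earlier cluster
      have hth := th_pos J
      have hthp : th J ^ (J - j) ≤ th J := by
        calc th J ^ (J - j) ≤ th J ^ 1 :=
              pow_le_pow_of_le_one hth.le (th_le_one J) (by omega)
          _ = th J := pow_one _
      have hboth : ∀ e ≤ gap D j + 2 * D, AA D j r * xx j r ^ e ≤ th J * AA D J r := by
        intro e he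
        exact (AA_left_strong hj hr he).trans (mul_le_mul_of_nonneg_right hthp hA.le)
      have hfin : (1 + b) * (th J * AA D J r) ≤ upf D b J r * (AA D J r * NN b ρ) := by
        calc (1 + b) * (th J * AA D J r) = ((1 + b) * th J) * (AA D J r * 1) := by ring
          _ ≤ upf D b J r * (AA D J r * NN b ρ) := by gcongr
      cases t
      · simp only [cond_false]
        have h2 := hboth m (by omega)
        have : 0 ≤ b * (th J * AA D J r) := by positivity
        linarith
      · simp only [cond_true]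
        have h2 := hboth (gap D j + m) (by omega)
        have h3 := mul_le_mul_of_nonneg_left h2 hb.le
        have : 0 ≤ th J * AA D J r := by positivity
        linarith
    · subst hj
      have hxm : xx j r ^ (m : ℕ) ≤ 1 + dev D (xx j r) := by
        have := (abs_le.1 (le_dev (D := D) hm (xx j r))).2
        linarith
      cases t
      · simp only [cond_false]
        calc AA D j r * xx j r ^ (m : ℕ) ≤ AA D j r * (upf D b j r) := by
              gcongr
              exact hxm.trans hU1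
          _ = upf D b j r * (AA D j r * 1) := by ring
          _ ≤ _ := by gcongr
      · simp only [cond_true]
        rw [pow_add, ← hρ]
        calc AA D j r * (b * (ρ * xx j r ^ (m : ℕ)))
            = xx j r ^ (m : ℕ) * (AA D j r * (b * ρ)) := by ring
          _ ≤ upf D b j r * (AA D j r * NN b ρ) := by
              gcongr
              exact hxm.trans hU1
    · -- later cluster
      obtain ⟨h1, h2, h3⟩ := right_pow (i := j) (J := J) hj hr0 hr'
      have hA1 : AA D (J + 1) r = AA D J r * ρ ^ 2 := by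
        rw [AA_succ, hρ, ← pow_mul, mul_comm (gap D J) 2]
      have hAj : AA D j r ≤ AA D J r * NN b ρ := by
        obtain ⟨k, rfl⟩ := Nat.exists_eq_add_of_le hj
        have h4 := AA_right (D := D) hr0 hr' k
        have h5 : th (J + 2) ^ k ≤ 1 := pow_le_one₀ (th_pos _).le (th_le_one _)
        calc AA D (J + 1 + k) r ≤ th (J + 2) ^ k * AA D (J + 1) r := h4
          _ ≤ 1 * AA D (J + 1) r := mul_le_mul_of_nonneg_right h5 (AA_pos _ hr0).le
          _ = AA D J r * ρ ^ 2 := by rw [one_mul, hA1]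
          _ ≤ _ := mul_le_mul_of_nonneg_left hN3 hA.le
      have hAj0 := AA_pos (D := D) j hr0
      cases t
      · simp only [cond_false]
        calc AA D j r * xx j r ^ (m : ℕ) ≤ AA D j r * 1 := by
              gcongr
              exact pow_le_one₀ h2.le h1
          _ ≤ 1 * (AA D J r * NN b ρ) := by linarith
          _ ≤ _ := by gcongr
      · simp only [cond_true]
        have h6 : xx j r ^ (gap D j + (m : ℕ)) ≤ th J := by
          refine le_trans (pow_le_pow_of_le_one h2.le h1 ?_) (h3.trans ?_)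
          · unfold gap
            omega
          · unfold th
            push_cast
            gcongr
            linarith
        have hth := th_pos J
        calc AA D j r * (b * xx j r ^ (gap D j + (m : ℕ)))
            ≤ (AA D J r * NN b ρ) * ((1 + b) * th J) := by
              gcongr
              linarith
          _ ≤ _ := by
              rw [mul_comm]
              gcongr
  · have h1 : aa D b K a n = 0 := by
      unfold aa
      rw [Function.extend_apply' _ _ _ hn]
      rfl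
    rw [h1, norm_zero, zero_mul]
    positivity

/-- Exact size of the central terms. -/
lemma center_term (hD : 3 ≤ D) (hb : 0 < b) (hs : K + (D - 3) * a = D) (j : ℕ) (r : ℝ)
    (t : Bool) :
    ‖cf D b K a (j, (t, ⟨D - 1, by omega⟩))‖ * r ^ ex D (j, (t, ⟨D - 1, by omega⟩))
      = AA D j r * (bif t then b * xx j r ^ (gap D j + (D - 1)) else xx j r ^ (D - 1)) := by
  have hD0 : D ≠ 0 := by omega
  have hc := cc_pos (D := D) j
  have hj : ‖((j : ℂ) + 1)‖ = (j : ℝ) + 1 := by
    rw [← Nat.cast_succ, Complex.norm_natCast]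
    push_cast
    rfl
  have hj0 : (0 : ℝ) < (j : ℝ) + 1 := by positivity
  have h1 : ∀ c < 3, coef D (wt K a c) (D - 1) = 1 := fun c hc =>
    coef_center hD0 (wt_sum hD hs hc)
  cases t
  · simp only [cf, ex, cond_false, norm_mul, norm_pow, norm_neg, norm_one, one_pow, one_mul,
      Complex.norm_real, Real.norm_eq_abs, abs_of_pos hc, norm_div, hj, add_zero,
      h1 (j % 2) (by omega)]
    unfold AA xx
    rw [div_pow, pow_add]
    ring
  · simp only [cf, ex, cond_true, norm_mul, norm_pow, norm_neg, norm_one, one_pow, one_mul,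
      Complex.norm_real, Real.norm_eq_abs, abs_of_pos hc, norm_div, hj, abs_of_pos hb,
      h1 2 (by omega)]
    unfold AA xx
    rw [div_pow, pow_add r (expN D j + gap D j), pow_add r (expN D j), pow_add r (gap D j)]
    ring

lemma aa_lower (hD : 3 ≤ D) (hb : 0 < b)
    (hs : K + (D - 3) * a = D) {J : ℕ} {r : ℝ} (hr : (J : ℝ) + 1 / 2 ≤ r) :
    ∃ n : ℕ, (1 - dev D (xx J r) - dev D (xx (J + 1) r)) *
      (AA D J r * NN b (xx J r ^ gap D J)) ≤ ‖aa D b K a n‖ * r ^ n := by
  have hJ0 : (0 : ℝ) ≤ J := Nat.cast_nonneg J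
  have hr0 : 0 < r := by linarith
  have hA := AA_pos (D := D) J hr0
  set ρ := xx J r ^ gap D J with hρ
  have hx0 : 0 < xx J r := by unfold xx; positivity
  have hρ0 : 0 ≤ ρ := by rw [hρ]; positivity
  have e1 := dev_nonneg (D := D) (xx J r)
  have e2 := dev_nonneg (D := D) (xx (J + 1) r)
  have d1 : 1 - dev D (xx J r) ≤ xx J r ^ (D - 1) := by
    have := (abs_le.1 (le_dev (D := D) (m := D - 1) (by omega) (xx J r))).1
    linarith
  have d2 : 1 - dev D (xx (J + 1) r) ≤ xx (J + 1) r ^ (D - 1) := by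
    have := (abs_le.1 (le_dev (D := D) (m := D - 1) (by omega) (xx (J + 1) r))).1
    linarith
  have haa : ∀ i, aa D b K a (ex D i) = cf D b K a i := fun i => ex_inj.extend_apply _ _ _
  rcases le_total (max (b * ρ) (ρ ^ 2)) 1 with h1 | h1
  · refine ⟨ex D (J, (false, ⟨D - 1, by omega⟩)), ?_⟩
    rw [haa, center_term hD hb hs J r]
    simp only [cond_false]
    have hN : NN b ρ = 1 := by unfold NN; rw [max_eq_left h1]
    rw [hN, mul_one, mul_comm]
    apply mul_le_mul_of_nonneg_left _ hA.le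
    linarith
  · rcases le_total (ρ ^ 2) (b * ρ) with h2 | h2
    · refine ⟨ex D (J, (true, ⟨D - 1, by omega⟩)), ?_⟩
      rw [haa, center_term hD hb hs J r]
      simp only [cond_true]
      have hN : NN b ρ = b * ρ := by
        unfold NN
        rw [max_eq_left h2] at h1 ⊢
        rw [max_eq_right h1]
      rw [hN, pow_add, ← hρ]
      calc (1 - dev D (xx J r) - dev D (xx (J + 1) r)) * (AA D J r * (b * ρ))
          ≤ xx J r ^ (D - 1) * (AA D J r * (b * ρ)) := by
            gcongr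
            linarith
        _ = _ := by ring
    · refine ⟨ex D (J + 1, (false, ⟨D - 1, by omega⟩)), ?_⟩
      rw [haa, center_term hD hb hs (J + 1) r]
      simp only [cond_false]
      have hN : NN b ρ = ρ ^ 2 := by
        unfold NN
        rw [max_eq_right h2] at h1 ⊢
        rw [max_eq_right h1]
      have hA1 : AA D (J + 1) r = AA D J r * ρ ^ 2 := by
        rw [AA_succ, hρ, ← pow_mul, mul_comm (gap D J) 2]
      rw [hN, hA1]
      calc (1 - dev D (xx J r) - dev D (xx (J + 1) r)) * (AA D J r * ρ ^ 2)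
          ≤ xx (J + 1) r ^ (D - 1) * (AA D J r * ρ ^ 2) := by
            gcongr
            linarith
        _ = _ := by ring

end Final


section Limit

/-- The index of the cluster that governs radius `r`. -/
noncomputable def JJ (r : ℝ) : ℕ := ⌊r - 1 / 2⌋₊

lemma JJ_spec {r : ℝ} (hr : 3 / 2 ≤ r) :
    1 ≤ JJ r ∧ (JJ r : ℝ) + 1 / 2 ≤ r ∧ r ≤ (JJ r : ℝ) + 3 / 2 := by
  unfold JJ
  have h1 := Nat.floor_le (show (0 : ℝ) ≤ r - 1 / 2 by linarith)
  have h2 := Nat.lt_floor_add_one (r - 1 / 2)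
  refine ⟨?_, by linarith, by linarith⟩
  rw [Nat.one_le_floor_iff]
  linarith

lemma tendsto_JJ : Tendsto JJ atTop atTop := by
  unfold JJ
  exact tendsto_nat_floor_atTop.comp (tendsto_atTop_add_const_right _ _ tendsto_id)

lemma tendsto_JJr : Tendsto (fun r => (JJ r : ℝ)) atTop atTop :=
  tendsto_natCast_atTop_atTop.comp tendsto_JJ

lemma tendsto_small (c d : ℝ) : Tendsto (fun r => c / ((JJ r : ℝ) + d)) atTop (𝓝 0) :=
  (tendsto_atTop_add_const_right _ d tendsto_JJr).const_div_atTop c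

lemma tendsto_xx0 : Tendsto (fun r => xx (JJ r) r) atTop (𝓝 1) := by
  rw [tendsto_iff_norm_sub_tendsto_zero]
  refine squeeze_zero' (Eventually.of_forall fun _ => norm_nonneg _) ?_ (tendsto_small 2 1)
  filter_upwards [eventually_ge_atTop (3 / 2 : ℝ)] with r hr
  obtain ⟨-, h2, h3⟩ := JJ_spec hr
  unfold xx
  have hJ0 : (0 : ℝ) ≤ JJ r := Nat.cast_nonneg _
  have h4 : r / ((JJ r : ℝ) + 1) - 1 = (r - (JJ r + 1)) / (JJ r + 1) := by field_simp
  rw [h4, Real.norm_eq_abs, abs_div, abs_of_pos (by positivity : (0 : ℝ) < (JJ r : ℝ) + 1)]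
  gcongr
  rw [abs_le]
  constructor <;> linarith

lemma tendsto_xx1 : Tendsto (fun r => xx (JJ r + 1) r) atTop (𝓝 1) := by
  rw [tendsto_iff_norm_sub_tendsto_zero]
  refine squeeze_zero' (Eventually.of_forall fun _ => norm_nonneg _) ?_ (tendsto_small 2 2)
  filter_upwards [eventually_ge_atTop (3 / 2 : ℝ)] with r hr
  obtain ⟨-, h2, h3⟩ := JJ_spec hr
  unfold xx
  have hJ0 : (0 : ℝ) ≤ JJ r := Nat.cast_nonneg _
  push_cast
  have h4 : r / ((JJ r : ℝ) + 1 + 1) - 1 = (r - (JJ r + 2)) / (JJ r + 2) := by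
    field_simp
    ring
  rw [h4, Real.norm_eq_abs, abs_div, abs_of_pos (by positivity : (0 : ℝ) < (JJ r : ℝ) + 2)]
  gcongr
  rw [abs_le]
  constructor <;> linarith

lemma continuous_dev (D : ℕ) : Continuous (dev D) := by
  unfold dev
  fun_prop

lemma dev_one (D : ℕ) : dev D 1 = 0 := by
  unfold dev
  simp

lemma tendsto_dev0 (D : ℕ) : Tendsto (fun r => dev D (xx (JJ r) r)) atTop (𝓝 0) := by
  have := ((continuous_dev D).tendsto 1).comp tendsto_xx0
  rwa [dev_one] at this

lemma tendsto_dev1 (D : ℕ) : Tendsto (fun r => dev D (xx (JJ r + 1) r)) atTop (𝓝 0) := by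
  have := ((continuous_dev D).tendsto 1).comp tendsto_xx1
  rwa [dev_one] at this

lemma tendsto_err (D : ℕ) (b : ℝ) : Tendsto (fun r => err D b (JJ r) r) atTop (𝓝 0) := by
  unfold err far
  have h1 := tendsto_small (8 * QQ D b) 0
  simp only [add_zero] at h1
  have := (((tendsto_dev0 D).const_mul 2).add (tendsto_dev1 D)).add h1
  simpa using this

lemma tendsto_upf (D : ℕ) (b : ℝ) : Tendsto (fun r => upf D b (JJ r) r) atTop (𝓝 1) := by
  unfold upf th
  have h1 := ((tendsto_dev0 D).const_add 1).max ((tendsto_small 2 2).const_mul (1 + b))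
  simpa using h1

/-- The general construction. -/
theorem exists_limit {b K : ℝ} (hb : 0 < b) (hK0 : K0 b < K) :
    ∃ f : ℂ → ℂ, Differentiable ℂ f ∧ (¬ ∃ p : Polynomial ℂ, ∀ z, f z = p.eval z) ∧
      Tendsto (fun r => maxTerm f r / maxModulus f r) atTop (𝓝 (1 / K)) := by
  have hK0pos : 0 < K0 b := by unfold K0; positivity
  have hKpos : 0 < K := hK0pos.trans hK0
  -- choice of D
  obtain ⟨D, hDbig⟩ := exists_nat_ge (3 * K / (K - K0 b) + K + 4)
  have hsub : 0 < K - K0 b := sub_pos.2 hK0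
  have hq : 0 < 3 * K / (K - K0 b) := by positivity
  have hD4 : (4 : ℝ) ≤ D := by linarith
  have hDK : K < D := by linarith
  have hD : 3 ≤ D := by
    have : (3 : ℝ) ≤ D := by linarith
    exact_mod_cast this
  set a : ℝ := (D - K) / (D - 3) with ha
  have hD3 : (0 : ℝ) < D - 3 := by linarith
  have ha0 : 0 ≤ a := div_nonneg (by linarith) hD3.le
  have hs : K + (D - 3) * a = D := by
    rw [ha]
    field_simp
    ring
  have haK : a * K0 b ≤ K := by
    rw [ha, div_mul_eq_mul_div, div_le_iff₀ hD3]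
    have h1 : 3 * K ≤ (K - K0 b) * D := by
      have h2 : 3 * K / (K - K0 b) ≤ D := by linarith
      rw [div_le_iff₀ hsub] at h2
      linarith
    nlinarith [mul_pos hKpos hK0pos]
  have hf := differentiable_ff hD hb hKpos.le ha0 hs
  have hsum := hasSum_aa hD hb hKpos.le ha0 hs
  have hcoef : taylorCoeff (ff D b K a) = aa D b K a := taylorCoeff_eq hf hsum
  refine ⟨ff D b K a, hf, ?_, ?_⟩
  · apply not_poly hsum
    intro N
    refine ⟨ex D (N, (false, ⟨D - 1, by omega⟩)), ?_, ?_⟩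
    · have h1 : ∀ n, n ≤ expN D n := by
        intro n
        induction n with
        | zero => simp
        | succ n ih =>
          simp only [expN]
          unfold gap
          nlinarith
      have := h1 N
      simp only [ex]
      omega
    · have h1 : aa D b K a (ex D (N, (false, ⟨D - 1, by omega⟩)))
          = cf D b K a (N, (false, ⟨D - 1, by omega⟩)) := ex_inj.extend_apply _ _ _
      rw [h1]
      have h2 := center_term (K := K) (a := a) hD hb hs N 1 false
      simp only [one_pow, mul_one, cond_false] at h2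
      have h3 := AA_pos (D := D) N one_pos
      intro h4
      rw [h4, norm_zero] at h2
      have h5 : 0 < xx N 1 := by unfold xx; positivity
      have h6 : 0 < AA D N 1 * xx N 1 ^ (D - 1) := by positivity
      linarith
  · -- the limit
    set P : ℝ → ℝ := fun r => AA D (JJ r) r * NN b (xx (JJ r) r ^ gap D (JJ r)) with hP
    have hPpos : ∀ r, 3 / 2 ≤ r → 0 < P r := by
      intro r hr
      have h1 : 0 < AA D (JJ r) r := AA_pos _ (by linarith)
      have h2 : 0 < NN b (xx (JJ r) r ^ gap D (JJ r)) := lt_of_lt_of_le one_pos (le_max_left _ _)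
      exact mul_pos h1 h2
    -- bounds for the maximum modulus
    have hMup : ∀ r, 3 / 2 ≤ r →
        maxModulus (ff D b K a) r ≤ (K + err D b (JJ r) r) * P r := by
      intro r hr
      obtain ⟨h1, h2, h3⟩ := JJ_spec hr
      unfold maxModulus
      apply csSup_le
      · refine ⟨_, ⟨(r : ℂ), ?_, rfl⟩⟩
        rw [mem_sphere_zero_iff_norm, Complex.norm_real, Real.norm_eq_abs,
          abs_of_pos (by linarith)]
      · rintro _ ⟨z, hz, rfl⟩
        rw [mem_sphere_zero_iff_norm] at hz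
        exact ff_upper hD hb hKpos.le ha0 hs haK h1 h2 h3 hz
    have hMlow : ∀ r, 3 / 2 ≤ r →
        (K - err D b (JJ r) r) * P r ≤ maxModulus (ff D b K a) r := by
      intro r hr
      obtain ⟨h1, h2, h3⟩ := JJ_spec hr
      obtain ⟨z, hz, h4⟩ := ff_lower hD hb hKpos.le ha0 hs h1 h2 h3
      refine h4.trans ?_
      unfold maxModulus
      apply le_csSup
      · refine ⟨(K + err D b (JJ r) r) * P r, ?_⟩
        rintro _ ⟨w, hw, rfl⟩
        rw [mem_sphere_zero_iff_norm] at hw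
        exact ff_upper hD hb hKpos.le ha0 hs haK h1 h2 h3 hw
      · exact ⟨z, by rwa [mem_sphere_zero_iff_norm], rfl⟩
    -- bounds for the maximum term
    have hmup : ∀ r, 3 / 2 ≤ r → maxTerm (ff D b K a) r ≤ upf D b (JJ r) r * P r := by
      intro r hr
      obtain ⟨h1, h2, h3⟩ := JJ_spec hr
      unfold maxTerm
      rw [hcoef]
      exact ciSup_le fun n => aa_upper hD hb hKpos.le ha0 hs h2 h3 n
    have hmlow : ∀ r, 3 / 2 ≤ r →
        (1 - dev D (xx (JJ r) r) - dev D (xx (JJ r + 1) r)) * P r ≤ maxTerm (ff D b K a) r := by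
      intro r hr
      obtain ⟨h1, h2, h3⟩ := JJ_spec hr
      obtain ⟨n, hn⟩ := aa_lower (K := K) (a := a) hD hb hs h2
      refine hn.trans ?_
      unfold maxTerm
      rw [hcoef]
      apply le_ciSup (f := fun n => ‖aa D b K a n‖ * r ^ n)
      refine ⟨upf D b (JJ r) r * P r, ?_⟩
      rintro _ ⟨m, rfl⟩
      exact aa_upper hD hb hKpos.le ha0 hs h2 h3 m
    -- squeeze
    have hL : Tendsto (fun r => (1 - dev D (xx (JJ r) r) - dev D (xx (JJ r + 1) r))
        / (K + err D b (JJ r) r)) atTop (𝓝 (1 / K)) := by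
      have h1 := ((tendsto_const_nhds (x := (1 : ℝ))).sub (tendsto_dev0 D)).sub (tendsto_dev1 D)
      have h2 := (tendsto_err D b).const_add K
      have h3 := h1.div h2 (by simpa using hKpos.ne')
      simp only [sub_zero, add_zero] at h3
      exact h3
    have hU : Tendsto (fun r => upf D b (JJ r) r / (K - err D b (JJ r) r)) atTop
        (𝓝 (1 / K)) := by
      have h2 := (tendsto_err D b).const_sub K
      have h3 := (tendsto_upf D b).div h2 (by simpa using hKpos.ne')
      simp only [sub_zero] at h3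
      exact h3
    have hev1 : ∀ᶠ r in atTop, err D b (JJ r) r < K := (tendsto_err D b).eventually_lt_const hKpos
    have hev2 : ∀ᶠ r in atTop, dev D (xx (JJ r) r) + dev D (xx (JJ r + 1) r) < 1 := by
      have h1 := (tendsto_dev0 D).add (tendsto_dev1 D)
      rw [add_zero] at h1
      exact h1.eventually_lt_const one_pos
    refine tendsto_of_tendsto_of_tendsto_of_le_of_le' hL hU ?_ ?_
    · filter_upwards [eventually_ge_atTop (3 / 2 : ℝ), hev1, hev2] with r hr h1 h2
      have hp := hPpos r hr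
      have hM0 : 0 < maxModulus (ff D b K a) r :=
        lt_of_lt_of_le (mul_pos (sub_pos.2 h1) hp) (hMlow r hr)
      have hM := hMup r hr
      have hm := hmlow r hr
      have hKe : 0 < K + err D b (JJ r) r := by
        by_contra h3
        rw [not_lt] at h3
        have := mul_nonpos_of_nonpos_of_nonneg h3 hp.le
        linarith
      rw [div_le_div_iff₀ hKe hM0]
      calc (1 - dev D (xx (JJ r) r) - dev D (xx (JJ r + 1) r)) * maxModulus (ff D b K a) r
          ≤ (1 - dev D (xx (JJ r) r) - dev D (xx (JJ r + 1) r))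
            * ((K + err D b (JJ r) r) * P r) := by
            apply mul_le_mul_of_nonneg_left hM
            linarith
        _ = ((1 - dev D (xx (JJ r) r) - dev D (xx (JJ r + 1) r)) * P r)
            * (K + err D b (JJ r) r) := by ring
        _ ≤ maxTerm (ff D b K a) r * (K + err D b (JJ r) r) :=
            mul_le_mul_of_nonneg_right hm hKe.le
    · filter_upwards [eventually_ge_atTop (3 / 2 : ℝ), hev1] with r hr h1
      have hp := hPpos r hr
      have hKe : 0 < K - err D b (JJ r) r := sub_pos.2 h1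
      have hM0 : 0 < maxModulus (ff D b K a) r :=
        lt_of_lt_of_le (mul_pos hKe hp) (hMlow r hr)
      have hM := hMlow r hr
      have hm := hmup r hr
      have hU0 : 0 ≤ upf D b (JJ r) r := by
        unfold upf
        exact le_max_of_le_left (by have := dev_nonneg (D := D) (xx (JJ r) r); linarith)
      rw [div_le_div_iff₀ hM0 hKe]
      calc maxTerm (ff D b K a) r * (K - err D b (JJ r) r)
          ≤ (upf D b (JJ r) r * P r) * (K - err D b (JJ r) r) :=
            mul_le_mul_of_nonneg_right hm hKe.le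
        _ = upf D b (JJ r) r * ((K - err D b (JJ r) r) * P r) := by ring
        _ ≤ upf D b (JJ r) r * maxModulus (ff D b K a) r := mul_le_mul_of_nonneg_left hM hU0

end Limit

/-- Every `C` with `1/2 < C < sqrt (128 / (207 + 33 * sqrt 33)) = 0.56812...` is the limit of the
ratio of the maximum term and the maximum modulus for some transcendental entire function. -/
theorem result (C : ℝ) (hC : 1 / 2 < C) (hC' : C ^ 2 * (207 + 33 * Real.sqrt 33) < 128) :
    ∃ f : ℂ → ℂ, Differentiable ℂ f ∧ (¬ ∃ p : Polynomial ℂ, ∀ z, f z = p.eval z) ∧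
      Tendsto (fun r => maxTerm f r / maxModulus f r) atTop (𝓝 C) := by
  have hC0 : 0 < C := by linarith
  set q : ℝ := Real.sqrt 33 with hq
  have hq2 : q ^ 2 = 33 := Real.sq_sqrt (by norm_num)
  have hq0 : 0 < q := Real.sqrt_pos.2 (by norm_num)
  set s : ℝ := (1 + q) / 2 with hs
  have hs0 : 0 < s := by rw [hs]; positivity
  set b : ℝ := Real.sqrt s with hb
  have hb0 : 0 < b := Real.sqrt_pos.2 hs0
  have hb2 : b ^ 2 = s := Real.sq_sqrt hs0.le
  have hK0 : K0 b < 1 / C := by
    unfold K0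
    rw [hb2]
    have h1 : Real.sqrt (s / 4 + 1) * (1 + 1 / s) * C < 1 := by
      apply lt_of_pow_lt_pow_left₀ 2 (by norm_num)
      rw [one_pow, mul_pow, mul_pow, Real.sq_sqrt (by positivity)]
      have h2 : (s / 4 + 1) * (1 + 1 / s) ^ 2 = (207 + 33 * q) / 128 := by
        have h3 : s ^ 2 = s + 8 := by
          rw [hs]
          nlinarith
        have h4 : (s / 4 + 1) * (1 + 1 / s) ^ 2 = (s + 4) * (s + 1) ^ 2 / (4 * s ^ 2) := by
          field_simp
        rw [h4, h3, div_eq_div_iff (by positivity) (by norm_num), hs]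
        nlinarith
      rw [h2]
      nlinarith
    rwa [lt_div_iff₀ hC0]
  obtain ⟨f, hf1, hf2, hf3⟩ := exists_limit hb0 hK0
  rw [one_div_one_div] at hf3
  exact ⟨f, hf1, hf2, hf3⟩

end Pool.Agent.Results.MP_58b66c_an.LimitInterval
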